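import Pool.Agent.Work.MP_8826fd_mp.NF.Gk

/-!
# MP_8826fd_mp, block NU (captain helper88): the uniform form of the block NF

GOAL.  An absolute constant `C` such that for all `B, R > 0` and every integer `N ≥ C (1 + B R²)`, every simply connected open set
`Ω` of area `π R²` which is invariant under the rotation by `2π/N` about a point `p` satisfies `λ(B, Ω) ≤ λ(B, D(p,R))`, with
equality only for the disc.  The block NF (captain helper57) gives `N ≥ N₀(B, R)`; here only the one-dimensional part changes.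

FORMAT.  Item NAME: file `NU/I_NAME.lean`, namespace `Pool.Agent.MFK.NU`, auxiliary lemmas in the namespace `INAME`, main theorem
`theorem pr_NAME (h1 : StA) ... : StNAME`.  The hypotheses are only the statements named in the docstring.
USEFUL (all proved): `NF/Gk.lean` (facts on `gk`: `gk_c2`, `gk_pos`, `gk_ode`, `gk_prod`, `gk_lt`, `gk_ric`, `gk_up`, `gk_down`, `gk_bdd`),
`Asm.lean` (it is imported: `Asm.rRad' : RRad`, `Asm.rVal' : RVal`, `Asm.kBd : KBd`, `Asm.rF' : RF`, `rReg : RReg`, `uEn rReg : UEn`,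
`lRad rReg (lPicone rReg) : LRad`, `lPars : LPars`).
LETTERS.  `x = B r²/2`, `z = x - k`, `l = lam r²`, `A = 1/2 - lam/(2B) > 0` (so `B r² - lam r² = 2 A B r²`), `y = yk B lam k r`.
-/

set_option autoImplicit false

namespace Pool.Agent.MFK.NU

open MeasureTheory Set Filter Topology Pool.Agent.MFK.NF

/-- `y_k(r) = r g_k'(r)/g_k(r)` -/
noncomputable def yk (B lam : ℝ) (k : ℕ) (r : ℝ) : ℝ := r * deriv (gk B lam k) r / gk B lam k r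

/-- spectral data of the unit disc with the signs of all the radial derivatives -/
structure Gr (B lam : ℝ) (m : ℕ) : Prop extends Sp B lam m where
  nonneg : ∀ n : ℤ, 0 ≤ deriv (radf n (FK B lam n)) 1

/-- ITEM Gr.  The proof of `pr_Sp` in `NF/Gk.lean`, keeping the sign condition (`hnn` there). -/
def StGr : Prop := ∀ B : ℝ, 0 < B → ∃ (lam : ℝ) (m : ℕ), Gr B lam m

/-- ITEM Vlo.  `y ≥ -z + 2xA/(k+1)`.  First way: the scaling `FK (B r²) (lam r²) k t = FK B lam k (r² t)` (the parameter `An` is the same), so `yk (B r²) (lam r²) k 1 = yk B lam k r`, then `RVal`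
(`y = k - x + 2x Phi1/Phi`) and `KBd` (`Phi1/Phi ≥ A/(k+1)`).  Second way: `τ = z + y` satisfies `r τ' = 4Ax + τ (2z - τ)` (`gk_ric`), and `σ = 2xA/(k+1)` satisfies `r σ' = 2σ ≤ 4Ax + σ (2z - σ)` as `σ ≤ 2x`; so
`(τ - σ) · g_k · r^k · exp(-B r²/4 + B A r²/(2(k+1)))` is nondecreasing and tends to a limit `≥ 0` at `0`. -/
def StVlo : Prop := ∀ (B lam : ℝ) (k : ℕ) (r : ℝ), 0 < B → 0 < lam → lam < B → 0 < r →
  -(B * r ^ 2 / 2 - k) + B * r ^ 2 * (1 / 2 - lam / (2 * B)) / (k + 1) ≤ yk B lam k r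

/-- ITEM Star (uses StVlo).  Let `y_k(r)` be minimal among all modes.  CLAIM `z > 0` and `z² - y² ≥ l t/(1+t)` for `0 ≤ t ≤ 2xA/(x+1)`.
`k ≥ 1`: `gk_prod` for `k - 1`: `(y_k + k + x)(k - 1 + x - y_(k-1)) = l + (2k-1) 2x`; as `y_(k-1) ≥ y_k` and `y_k + k + x > 0` (the second factor is positive by `gk_lt`), `(y_k + k + x)(k - 1 + x - y_k) ≥ l + (2k-1) 2x`, which is
`z² + z - y² - y ≥ l`, that is `(z - y)(z + y + 1) ≥ l > 0`.  By StVlo `z + y ≥ 2xA/(k+1) > 0`, so `z > y`, so `z > 0`, so `k < x`, `z + y ≥ 2xA/(x+1) ≥ t` and `z² - y² = (z - y)(z + y) ≥ l (z+y)/(z+y+1) ≥ l t/(1+t)`.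
`k = 0` (`z = x > 0`): `gk_prod` for `0`: `(y_1 + 1 + x)(x - y_0) = l + 2x`, `y_1 < 1 + x`, so `x - y_0 ≥ (l + 2x)/(2 + 2x) ≥ l/(1 + x)` (`l ≤ 2x`); StVlo: `x + y_0 ≥ 2xA ≥ t (1 + x)`; the product is `≥ l t ≥ l t/(1+t)`. -/
def StStar : Prop := ∀ (B lam : ℝ) (k : ℕ) (r : ℝ), 0 < B → 0 < lam → lam < B → 0 < r →
  (∀ j : ℕ, yk B lam k r ≤ yk B lam j r) →
  (k : ℝ) < B * r ^ 2 / 2 ∧
  ∀ t : ℝ, 0 ≤ t → t ≤ B * r ^ 2 * (1 / 2 - lam / (2 * B)) / (B * r ^ 2 / 2 + 1) →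
    lam * r ^ 2 * (t / (1 + t)) ≤ (B * r ^ 2 / 2 - k) ^ 2 - yk B lam k r ^ 2

/-- ITEM Up (the energy of the disc is not close to `B`).  For `f(r) = r^n e^{-B r²/4}` one has `f' = q f`, `q = n/r - B r/2`, so `(f'² + q² f²) r = (q r f²)' + B r f²`, and
`LRad` (for `F = FK B lam n`, `Gr.nonneg`) gives `(B - lam) J ≥ (x - n) f(1)²`, `x = B/2`, `J = ∫_0^1 f² r dr`, that is `A = (B - lam)/(2B) ≥ (x - n)/(2 x j)`, `j = ∫_0^1 τ^n e^{x(1-τ)} dτ` (`τ = r²`).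
`B ≤ 16`: `n = 0`, `j = (e^x - 1)/x`, `A ≥ x/(2(e^x - 1)) ≥ e^{-x}/2 ≥ e^{-8}/2`.
`B ≥ 16`: `n = ⌈x - √x⌉`, `√x - 1 ≤ z = x - n ≤ √x`; `(1-t)^n ≤ e^{-nt - nt²/2}`, `zt - nt²/2 ≤ z²/n - nt²/4`, so `j ≤ e^{z²/n} √(π/n)` (Gaussian integral), `n ≥ x/2`, `z²/n ≤ 2`:
`A ≥ (√x - 1) √(x/2)/(2x e² √π)`, bounded below by a positive constant.  Any positive `A0` is fine.
Last part: `LRad` with `n = 0`, `f = 1`: `lam/2 ≤ ∫ (Br/2)² r = B²/16`. -/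
def StUp : Prop := ∃ A0 : ℝ, 0 < A0 ∧ A0 ≤ 1 / 2 ∧ ∀ (B lam : ℝ) (m : ℕ), Gr B lam m →
  A0 ≤ 1 / 2 - lam / (2 * B) ∧ lam ≤ B ^ 2 / 8

/-- ITEM Low (lower bound of the energy of the disc).  Let `f = g_m`, `z_r = B r²/2 - m`.  `UEn` and `Sp.zero`: `∫_0^1 (f'² + z_r²/r² f² - lam f²) r dr = 0`.
For a `C¹` function `h` of `x = B r²/2` with `h² + 2x h_x ≤ z² - x/8` one has (`f'² ≥ 2 (h/r) f f' - (h²/r²) f²`) `(f'² + z²/r² f² - (B/16) f²) r ≥ (h f²)'`, so on every interval where this holds `∫ (…) ≥ [h f²]`.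
Take for `m ≥ 1`: `h = (2/5)√m - (x - m)/2` for `x ≤ x_1 = m + (4/5)√m`, `h = 0` for `x ≥ x_1`
(first interval: `(3/4)z² + (α + 7/8) z + (7/8) m - α² ≥ 0`, `α = (2/5)√m`, negative discriminant: `4α² + (7/4)α + 49/64 ≤ (21/8) m`; second: `z² ≥ x/8` for `z ≥ (4/5)√m`);
for `m = 0`: `h = -x/16 + x²/8` for `x ≤ 1/2`, `h = 0` for `x ≥ 1/2`.
In both cases `h f² → 0` at `r = 0` and `h ≥ 0` at `r = 1` (if `x_1 > B/2` only the first interval is used; `B/2 ≥ 1/2`; `m < B/2` by `Sp.hp`).  So `lam ≥ B/16`. -/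
def StLow : Prop := ∀ (B lam : ℝ) (m : ℕ), Gr B lam m → 1 ≤ B → B / 16 ≤ lam

/-- ITEM Eff (effective problem; uses StVlo, StStar).  Fix `s ∈ (0,1)`.  Put `D_k(r) = y_k(r) - lam (1 - r²)/2`: `r D_k' = z² - y_k²` (`gk_ric`; `z = Br²/2 - k`), `D_k(1) ≥ 0` (`Gr.nonneg`), `D_m(1) = 0` (`Sp.zero`).
`D_k > 0` on `(0,1]` for `k > M := B + 1` (StVlo: `y_k ≥ k - x`, `lam < B`).
CASE `B ≥ 1`.  `2xA/(x+1) ≥ (2/3) A r²` (`x ≥ r²/2`), so StStar with `t = (2/3) A r²` gives at a minimal mode `z² - y² ≥ lam r² (A/2) r²`.  Let `g_k = D_k + (lam A/9)(1 - r⁴)` : at a minimal mode `g_k' ≥ (1/2 - 4/9) lam A r³ > 0`.  `F = min_{k ≤ M} g_k` is continuous on `(0,1]`, `F(1) ≤ 0`.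
If `F(s) > 0` let `r0 = inf {r ∈ [s,1] : F ≤ 0}`: `F(r0) = 0`, `F > 0` on `[s, r0)`; the mode `k` with `g_k(r0) = 0` is minimal (`k' > M` have `D > 0 ≥ D_k(r0)`), so `g_k < 0` just left of `r0`: contradiction.  Take `k` minimal at `s`: `D_k(s) ≤ -(lam A/9)(1 - s⁴)`, `lam ≥ B/16`, and `k < x` by StStar.
CASE `B ≤ 1`.  StStar at `r = 1` for the mode `m` (`y_m(1) = 0` is minimal) or `Sp.hp` gives `m < B/2`: `m = 0`, `y_0(1) = 0`.  `y = y_0`: `gk_prod` for `0` and `RF` (third part for `N = 0`, after the scaling as in StVlo) give `y² + 2y ≤ x² - l`, so `y ≤ x²/2 ≤ x/4`, and `y ≥ -x + 2xA = - x lam/B ≥ -x/8`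
(`lam ≤ B²/8`); so `y² ≤ x²/16`, `D_0' ≥ (15/16) x²/r = (15/64) B² r³`, `D_0(s) ≤ -(15/256) B² (1 - s⁴)`.
(The upper bound `y_0 ≤ x/4` may also be obtained from `gk_lt` and the Riccati equation: any proof of `|y_0| ≤ x/2` is enough, with the constant `(3/4)` in place of `(15/16)`; e.g. `r y' = x² - l - y² ≤ x² - y²`, so `y ≤ x²/4`.) -/
def StEff : Prop := ∀ (B lam A0 : ℝ) (m : ℕ), Gr B lam m → 0 < A0 → A0 ≤ 1 / 2 → A0 ≤ 1 / 2 - lam / (2 * B) → lam ≤ B ^ 2 / 8 →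
  (1 ≤ B → B / 16 ≤ lam) → ∀ s : ℝ, 0 < s → s < 1 → ∃ k : ℕ, (k : ℝ) < B * s ^ 2 / 2 ∧
    yk B lam k s - lam * (1 - s ^ 2) / 2 ≤ -(A0 / 144 * min B (B ^ 2) * (1 - s ^ 2))

/-- ITEM Neg (uses StVlo).  If `y_k(r1) < 0` then `z` is at most of order `√x`: `A z1² ≤ 16 x1`.
StVlo gives `z1 > 0`.  Suppose `A z1² > 16 x1`; then `z1² > 32 x1`.  Let `τ = z + y > 0`.  `r τ' = 2x + z² - l - y² = 4Ax + τ(2z - τ)`.  For `r` with `x ∈ [x1 - z1/2, x1]` (`z ≥ z1/2`): if `y(r) ≥ 0` somewhere there then `y ≥ 0` up to `r1`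
(at a zero of `y`: `r y' = z² - l ≥ z1²/4 - 2x1 > 0`), contradiction; so `y < 0`, `τ < z`, and as functions of `x` (`d/dx = (r d/dr)/(2x)`): `τ_x ≥ 2A + τ z1/(4 x1)`.  Hence `τ(x1) ≥ 2A (4x1/z1)(e^{z1²/(8x1)} - 1)`, and with `u = z1²/(8 x1) > 2/A`, `e^u - 1 ≥ u + u²/2 ≥ u/A`:
`τ(x1) ≥ (8 A x1/z1)(u/A) = z1`: contradiction to `y < 0`. -/
def StNeg : Prop := ∀ (B lam : ℝ) (k : ℕ) (r : ℝ), 0 < B → 0 < lam → lam < B → 0 < r → yk B lam k r < 0 →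
  0 < B * r ^ 2 / 2 - k ∧ (1 / 2 - lam / (2 * B)) * (B * r ^ 2 / 2 - k) ^ 2 ≤ 16 * (B * r ^ 2 / 2)

/-- ITEM Sup (uses StVlo, StNeg).  `g(t) ≤ K g(r)` for `t ≤ r`, `K = exp(8/A0)`.  `g' = y g/r`.  If `y ≥ 0` on `[t, r]` clear.  Otherwise let `r2 = sup {ρ ∈ [t,r] : y(ρ) < 0}`: `g(r2) ≤ g(r)`, and `A z² ≤ 16 x`, `z ≥ 0` at `r2` (StNeg and continuity).
On `[t, r2]`: `y ≥ -max z 0` (StVlo), and for `w = z²/x`: `ρ w' = 2 z (2 - z/x) ≥ 2z` when `0 ≤ z ≤ x`; so `log g + w/2` is nondecreasing where `z ≥ 0` and `log g` is nondecreasing where `z ≤ 0`: `log g(t) ≤ log g(r2) + w(r2)/2 ≤ log g(r2) + 8/A0`. -/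
def StSup : Prop := ∀ (B lam A0 : ℝ) (k : ℕ) (t r : ℝ), 0 < B → 0 < lam → lam < B → 0 < A0 → A0 ≤ 1 / 2 - lam / (2 * B) →
  0 < t → t ≤ r → gk B lam k t ≤ Real.exp (8 / A0) * gk B lam k r

/-- ITEM RdU (radial energy with explicit constants; uses StVlo; compare `NF/I_Rad.lean` if it is landed).  `p(r) = g_k(sr)`, `p'(r) = s g_k'(sr)`, `g = g_k(s)`, `p² ≤ K² g²` on `[0,1]` (continuity at `0`).  `ρ(r) = ∑_{j ≥ 2} c_j r^{2j}`: `A = s² r² + ρ`,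
`0 ≤ ρ ≤ (1 - s²) r^{2N+2}` on `[0,1]`, `A' = 2 s² r + ρ'`, `ρ' = ∑_{j≥2} c_j 2j r^{2j-1} ≥ 0`.
(0) `x g_k(x) g_k'(x)` has the derivative `x (g_k'² + ((k/x - B x/2)² - lam) g_k²)`, so `∫₀¹ 2r (p'² + p² ((k - B s² r²/2)/r)²) dr - lam ∫₀¹ p² 2 s² r dr = 2 s g_k(s) g_k'(s)`.
(i) `(k - B A/2)² ≤ (k - B s² r²/2)² + B² ρ/2` (`k ≥ 0`, `A ≤ 1`), so the energy changes at most by `∫ (2/r) p² B² ρ/2 ≤ K² g² B² (1-s²)/(2N)`.
(ii) `|r p'(r)| ≤ B p(r)`: `r p'/p = y_k(sr)`, `-x ≤ k - x ≤ y_k < k + x` (StVlo, `gk_lt`) with `x = B s² r²/2` and `k < B s²/2`.  Termwise `∫₀¹ p² 2j r^{2j-1} dr = g² - ∫ 2 p p' r^{2j} dr ≥ g² - 2 K² g² B/(2j) ≥ g² - K² g² B/N` for `j > N`;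
so `∫ p² ρ' ≥ (1 - s²)(g² - K² g² B/N)` (`hasSum_integral_of_summable_integral_norm` or monotone convergence), `lam ≤ B`.
Sum: `≤ 2 s g_k g_k'(s) - lam (1-s²) g² + (3/2) K² B² (1-s²)/N g²`. -/
def StRdU : Prop := ∀ (B lam K : ℝ) (k N : ℕ) (s : ℝ) (c : ℕ → ℝ), 0 < B → 0 < lam → lam < B → 1 ≤ K → 1 ≤ N → 0 < s → s ≤ 1 →
  (k : ℝ) < B * s ^ 2 / 2 → (∀ t : ℝ, 0 < t → t ≤ s → gk B lam k t ≤ K * gk B lam k s) → Cf N s c →
  (∀ r ∈ Icc (0 : ℝ) 1, gk B lam k (s * r) ^ 2 ≤ K ^ 2 * gk B lam k s ^ 2) ∧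
  IntegrableOn (fun r => 2 * r * ((s * deriv (gk B lam k) (s * r)) ^ 2 + gk B lam k (s * r) ^ 2 * ((k - B * Aa c r / 2) / r) ^ 2)) (Ioo 0 1) ∧
  IntegrableOn (fun r => gk B lam k (s * r) ^ 2 * Aad c r) (Ioo 0 1) ∧
  (∫ r in Ioo (0 : ℝ) 1, 2 * r * ((s * deriv (gk B lam k) (s * r)) ^ 2 + gk B lam k (s * r) ^ 2 * ((k - B * Aa c r / 2) / r) ^ 2))
    - lam * (∫ r in Ioo (0 : ℝ) 1, gk B lam k (s * r) ^ 2 * Aad c r)
    ≤ 2 * WW B lam k s + 2 * K ^ 2 * B ^ 2 * (1 - s ^ 2) / N * gk B lam k s ^ 2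

/-- ITEM MUU (assembly for area `π` and centre `0`; captain). -/
def StMUU : Prop := ∃ C : ℝ, 0 < C ∧ ∀ (B : ℝ) (N : ℕ), 0 < B → C * (1 + B) ≤ N → ∀ Ω : Set ℂ, IsOpen Ω → IsSimplyConnected Ω →
  volume Ω = ENNReal.ofReal Real.pi → (∀ z ∈ Ω, Complex.exp (2 * Real.pi * Complex.I / N) * z ∈ Ω) →
  lamN B (toR Ω) ≤ lamN B disc ∧ (lamN B (toR Ω) = lamN B disc → Ω = Metric.ball 0 1)

/-- ITEM FinU (the theorem; captain). -/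
def StFinU : Prop := ∃ C : ℝ, 0 < C ∧ ∀ (B R : ℝ) (N : ℕ), 0 < B → 0 < R → C * (1 + B * R ^ 2) ≤ N →
  ∀ (p : ℝ × ℝ) (Ω : Set (ℝ × ℝ)), IsOpen Ω → SimplyConnectedSpace Ω → volume Ω = volume (edisc p R) → (∀ x ∈ Ω, rotN N p x ∈ Ω) →
    lamN B Ω ≤ lamN B (edisc p R) ∧ (lamN B Ω = lamN B (edisc p R) → Ω = edisc p R)

end Pool.Agent.MFK.NU
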