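import Pool.Agent.Work.MP_8826fd_mp.NU.Stmts

/-!
# MP_8826fd_mp, block NU, item Eff (helper71): effective negativity of the minimal mode
-/

set_option autoImplicit false

namespace Pool.Agent.MFK.NU

open MeasureTheory Set Filter Topology Pool.Agent.MFK.NF

namespace IEff

theorem A_pos {B lam : ℝ} (hB : 0 < B) (hl : lam < B) : 0 < 1 / 2 - lam / (2 * B) := by
  have : lam / (2 * B) < 1 / 2 := by
    rw [div_lt_iff₀ (by positivity)]
    linarith
  linarith

theorem yk_ge (h1 : StVlo) {B lam : ℝ} (hB : 0 < B) (hl0 : 0 < lam) (hl : lam < B) (k : ℕ) {r : ℝ}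
    (hr : 0 < r) : (k : ℝ) - B * r ^ 2 / 2 ≤ yk B lam k r := by
  have h := h1 B lam k r hB hl0 hl hr
  have hA := A_pos hB hl
  have h2 : 0 ≤ B * r ^ 2 * (1 / 2 - lam / (2 * B)) / (k + 1) := by positivity
  linarith

theorem yk_der {B lam : ℝ} (hB : 0 < B) (hl : lam < B) (k : ℕ) {r : ℝ} (hr : 0 < r) :
    HasDerivAt (yk B lam k) (((B * r ^ 2 / 2 - k) ^ 2 - lam * r ^ 2 - yk B lam k r ^ 2) / r) r :=
  gk_ric hB hl k hr

/-- `G_k = D_k + c (1 - r⁴)`, `D_k = y_k - lam (1 - r²)/2` -/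
noncomputable def Gk (B lam c : ℝ) (k : ℕ) (r : ℝ) : ℝ :=
  yk B lam k r - lam * (1 - r ^ 2) / 2 + c * (1 - r ^ 4)

theorem Gk_der {B lam : ℝ} (c : ℝ) (hB : 0 < B) (hl : lam < B) (k : ℕ) {r : ℝ} (hr : 0 < r) :
    HasDerivAt (Gk B lam c k) (((B * r ^ 2 / 2 - k) ^ 2 - yk B lam k r ^ 2) / r - 4 * c * r ^ 3) r := by
  have e1 := yk_der hB hl k hr
  have e2 : HasDerivAt (fun t : ℝ => lam * (1 - t ^ 2) / 2) (-(lam * r)) r := by
    have := (((hasDerivAt_pow 2 r).const_sub 1).const_mul lam).div_const 2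
    exact this.congr_deriv (by push_cast; ring)
  have e3 : HasDerivAt (fun t : ℝ => c * (1 - t ^ 4)) (-(4 * c * r ^ 3)) r := by
    have := ((hasDerivAt_pow 4 r).const_sub 1).const_mul c
    exact this.congr_deriv (by push_cast; ring)
  exact ((e1.fun_sub e2).fun_add e3).congr_deriv (by field_simp; ring)

/-- existence of a minimal mode -/
theorem ex_min (h1 : StVlo) {B lam : ℝ} (hB : 0 < B) (hl0 : 0 < lam) (hl : lam < B) {r : ℝ}
    (hr : 0 < r) : ∃ k : ℕ, ∀ j : ℕ, yk B lam k r ≤ yk B lam j r := by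
  obtain ⟨M, hM⟩ := exists_nat_gt (yk B lam 0 r + B * r ^ 2 / 2)
  obtain ⟨k, _, hk⟩ := Finset.exists_min_image (Finset.range (M + 1)) (fun j => yk B lam j r)
    ⟨0, Finset.mem_range.2 (Nat.succ_pos M)⟩
  refine ⟨k, fun j => ?_⟩
  rcases Nat.lt_or_ge j (M + 1) with hj | hj
  · exact hk j (Finset.mem_range.2 hj)
  · have e1 : yk B lam k r ≤ yk B lam 0 r := hk 0 (Finset.mem_range.2 (Nat.succ_pos M))
    have e2 := yk_ge h1 hB hl0 hl j hr
    have e3 : (M : ℝ) ≤ j := by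
      have : M ≤ j := by omega
      exact_mod_cast this
    linarith

theorem Gk_cont {B lam : ℝ} (c : ℝ) (hB : 0 < B) (hl : lam < B) (k : ℕ) {s : ℝ} (hs : 0 < s) :
    ContinuousOn (Gk B lam c k) (Icc s 1) := fun _ hr =>
  (Gk_der c hB hl k (lt_of_lt_of_le hs hr.1)).continuousAt.continuousWithinAt

/-- case `B ≥ 1`: propagation from `1` to `s` -/
theorem prop_down (h1 : StVlo) {B lam c : ℝ} {m : ℕ} (hB : 0 < B) (hl0 : 0 < lam) (hl : lam < B)
    (hc : 0 ≤ c) (hm : yk B lam m 1 = 0) {s : ℝ} (hs : 0 < s) (hs1 : s < 1)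
    (hmin : ∀ (k : ℕ) (r : ℝ), 0 < r → r ≤ 1 → (∀ j : ℕ, yk B lam k r ≤ yk B lam j r) →
      4 * c * r ^ 4 < (B * r ^ 2 / 2 - k) ^ 2 - yk B lam k r ^ 2) :
    ∃ k : ℕ, Gk B lam c k s ≤ 0 := by
  obtain ⟨M, hM⟩ := exists_nat_gt B
  set S : Set ℝ := ⋃ k ∈ Finset.range (M + 1), (Icc s 1 ∩ Gk B lam c k ⁻¹' Iic 0) with hS
  have hScl : IsClosed S := isClosed_biUnion_finset fun k _ =>
    (Gk_cont c hB hl k hs).preimage_isClosed_of_isClosed isClosed_Icc isClosed_Iic
  have hSsub : S ⊆ Icc s 1 := by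
    intro r hr
    simp only [hS, mem_iUnion] at hr
    obtain ⟨k, _, hr⟩ := hr
    exact hr.1
  have hSmem : ∀ r ∈ Icc s 1, ∀ k : ℕ, Gk B lam c k r ≤ 0 → r ∈ S := by
    intro r hr k hk
    simp only [hS, mem_iUnion]
    refine ⟨k, ?_, hr, hk⟩
    rw [Finset.mem_range]
    by_contra hcon
    push Not at hcon
    have e1 : (M : ℝ) < k := by exact_mod_cast hcon
    have hr0 : 0 < r := lt_of_lt_of_le hs hr.1
    have e2 := yk_ge h1 hB hl0 hl k hr0
    have e3 : r ^ 2 ≤ 1 := pow_le_one₀ hr0.le hr.2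
    have e4 : r ^ 4 ≤ 1 := pow_le_one₀ hr0.le hr.2
    have e5 : 0 ≤ c * (1 - r ^ 4) := mul_nonneg hc (by linarith)
    have e6 : B * r ^ 2 / 2 + lam * (1 - r ^ 2) / 2 ≤ B := by
      have : lam * (1 - r ^ 2) ≤ B * (1 - r ^ 2) := mul_le_mul_of_nonneg_right hl.le (by linarith)
      nlinarith
    unfold Gk at hk
    linarith
  have hSne : S.Nonempty := by
    refine ⟨1, hSmem 1 ⟨hs1.le, le_rfl⟩ m ?_⟩
    unfold Gk
    rw [hm]
    norm_num
  obtain ⟨r0, hr0S, hr0⟩ := (isCompact_Icc.of_isClosed_subset hScl hSsub).exists_isLeast hSne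
  have hr0I := hSsub hr0S
  have hr00 : 0 < r0 := lt_of_lt_of_le hs hr0I.1
  obtain ⟨k, hk⟩ := ex_min h1 hB hl0 hl hr00
  have hkG : Gk B lam c k r0 ≤ 0 := by
    simp only [hS, mem_iUnion] at hr0S
    obtain ⟨j, _, _, hj⟩ := hr0S
    have hj' : Gk B lam c j r0 ≤ 0 := hj
    have := hk j
    unfold Gk at hj' ⊢
    linarith
  rcases hr0I.1.eq_or_lt with h | h
  · exact ⟨k, by rw [h]; exact hkG⟩
  · exfalso
    have hd := Gk_der c hB hl k hr00
    have hdp : 0 < ((B * r0 ^ 2 / 2 - k) ^ 2 - yk B lam k r0 ^ 2) / r0 - 4 * c * r0 ^ 3 := by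
      have e := hmin k r0 hr00 hr0I.2 hk
      have : ((B * r0 ^ 2 / 2 - k) ^ 2 - yk B lam k r0 ^ 2) / r0 - 4 * c * r0 ^ 3
          = (((B * r0 ^ 2 / 2 - k) ^ 2 - yk B lam k r0 ^ 2) - 4 * c * r0 ^ 4) / r0 := by
        field_simp
      rw [this]
      exact div_pos (by linarith) hr00
    have hw := (hasDerivWithinAt_iff_tendsto_slope' (s := Iio r0) (by simp)).1
      (hd.hasDerivWithinAt (s := Iio r0))
    have hle : ((B * r0 ^ 2 / 2 - k) ^ 2 - yk B lam k r0 ^ 2) / r0 - 4 * c * r0 ^ 3 ≤ 0 := by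
      refine le_of_tendsto hw ?_
      filter_upwards [Ioo_mem_nhdsLT h] with r hr
      rw [slope_def_field]
      refine div_nonpos_of_nonneg_of_nonpos ?_ (by linarith [hr.2])
      by_contra hcon
      push Not at hcon
      have : r ∈ S := hSmem r ⟨hr.1.le, (hr.2.le.trans hr0I.2)⟩ k (by linarith)
      have := hr0 this
      linarith [hr.2]
    linarith

/-- case `B < 1`: upper bound of `y_0` -/
theorem y0_le {B lam : ℝ} (hB : 0 < B) (hl0 : 0 < lam) (hl : lam < B) {r : ℝ} (hr : 0 < r) :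
    yk B lam 0 r ≤ (B * r ^ 2 / 2) ^ 2 / 4 := by
  set w : ℝ → ℝ := fun t => yk B lam 0 t - (B * t ^ 2 / 2) ^ 2 / 4 with hw
  have hpos : ∀ t ∈ Icc (0 : ℝ) r, gk B lam 0 t ≠ 0 := by
    intro t ht
    rcases ht.1.eq_or_lt with h | h
    · rw [← h]; exact (gk_zero hB hl).ne'
    · exact (gk_pos hB hl 0 h).ne'
  have hcont : ContinuousOn w (Icc 0 r) := by
    refine ContinuousOn.sub ?_ (by fun_prop)
    unfold yk
    exact (continuousOn_id.mul (gk_dcont hB hl 0).continuousOn).div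
      (gk_cont hB hl 0).continuousOn hpos
  have hder : ∀ t : ℝ, 0 < t → HasDerivAt w (-(lam * t ^ 2 + yk B lam 0 t ^ 2) / t) t := by
    intro t ht
    have e1 := yk_der hB hl 0 ht
    have e2 : HasDerivAt (fun t : ℝ => (B * t ^ 2 / 2) ^ 2 / 4) (B ^ 2 * t ^ 3 / 4) t := by
      have := ((((hasDerivAt_pow 2 t).const_mul B).div_const 2).fun_pow 2).div_const 4
      exact this.congr_deriv (by push_cast; ring)
    exact (e1.fun_sub e2).congr_deriv (by push_cast; field_simp; ring)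
  have hanti : AntitoneOn w (Icc 0 r) := by
    refine antitoneOn_of_deriv_nonpos (convex_Icc 0 r) hcont ?_ ?_
    · intro t ht
      rw [interior_Icc] at ht
      exact (hder t ht.1).differentiableAt.differentiableWithinAt
    · intro t ht
      rw [interior_Icc] at ht
      rw [(hder t ht.1).deriv]
      refine div_nonpos_of_nonpos_of_nonneg ?_ ht.1.le
      have : 0 ≤ lam * t ^ 2 := by positivity
      nlinarith [sq_nonneg (yk B lam 0 t)]
  have := hanti (left_mem_Icc.2 hr.le) (right_mem_Icc.2 hr.le) hr.le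
  have h0 : w 0 = 0 := by simp [hw, yk]
  rw [h0] at this
  simp only [hw] at this
  linarith

theorem small (h1 : StVlo) {B lam : ℝ} (hB : 0 < B) (hB1 : B < 1) (hl0 : 0 < lam) (hl : lam < B)
    (hl8 : lam ≤ B ^ 2 / 8) (h0 : yk B lam 0 1 = 0) {s : ℝ} (hs : 0 < s) (hs1 : s < 1) :
    yk B lam 0 s - lam * (1 - s ^ 2) / 2 ≤ -(B ^ 2 / 20 * (1 - s ^ 4)) := by
  have hmono : MonotoneOn (Gk B lam (B ^ 2 / 20) 0) (Icc s 1) := by
    refine monotoneOn_of_deriv_nonneg (convex_Icc s 1) (Gk_cont _ hB hl 0 hs) ?_ ?_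
    · intro t ht
      rw [interior_Icc] at ht
      exact (Gk_der _ hB hl 0 (hs.trans ht.1)).differentiableAt.differentiableWithinAt
    · intro t ht
      rw [interior_Icc] at ht
      have ht0 : 0 < t := hs.trans ht.1
      rw [(Gk_der _ hB hl 0 ht0).deriv]
      have e1 := h1 B lam 0 t hB hl0 hl ht0
      have e2 := y0_le hB hl0 hl ht0
      have ht2 : t ^ 2 ≤ 1 := pow_le_one₀ ht0.le ht.2.le
      have ht2' : 0 < t ^ 2 := by positivity
      set x : ℝ := B * t ^ 2 / 2 with hx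
      have hx0 : 0 < x := by positivity
      have hx1 : x ≤ 1 / 2 := by
        rw [hx]
        nlinarith
      have e3 : -(x / 8) ≤ yk B lam 0 t := by
        have e4 : B * t ^ 2 * (1 / 2 - lam / (2 * B)) / (((0 : ℕ) : ℝ) + 1) = x - lam * t ^ 2 / 2 := by
          rw [hx]
          push_cast
          field_simp
          ring
        rw [e4] at e1
        push_cast at e1
        have e5 : lam * t ^ 2 / 2 ≤ x / 8 := by
          rw [hx]
          have : lam * t ^ 2 ≤ B ^ 2 / 8 * t ^ 2 := mul_le_mul_of_nonneg_right hl8 ht2'.le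
          have h6 : B ^ 2 / 8 * t ^ 2 ≤ B / 8 * t ^ 2 := by
            apply mul_le_mul_of_nonneg_right _ ht2'.le
            nlinarith
          nlinarith
        linarith
      have e6 : yk B lam 0 t ≤ x / 8 := by nlinarith
      have e7 : yk B lam 0 t ^ 2 ≤ (x / 8) ^ 2 := sq_le_sq' e3 e6
      have e8 : ((x - ((0 : ℕ) : ℝ)) ^ 2 - yk B lam 0 t ^ 2) / t - 4 * (B ^ 2 / 20) * t ^ 3
          = (x ^ 2 - yk B lam 0 t ^ 2 - B ^ 2 / 5 * t ^ 4) / t := by
        push_cast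
        field_simp
        ring
      rw [e8]
      refine div_nonneg ?_ ht0.le
      have e9 : B ^ 2 / 5 * t ^ 4 = 4 / 5 * x ^ 2 := by rw [hx]; ring
      rw [e9]
      nlinarith
  have := hmono (left_mem_Icc.2 hs1.le) (right_mem_Icc.2 hs1.le) hs1.le
  unfold Gk at this
  rw [h0] at this
  norm_num at this
  linarith

end IEff

open IEff in
theorem pr_Eff (h1 : StVlo) (h2 : StStar) : StEff := by
  intro B lam A0 m hG hA0 hA0h hA hl8 hlow s hs hs1
  have hB := hG.hB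
  have hl0 := hG.lam_pos
  have hl := hG.lam_lt
  have hm1 : yk B lam m 1 = 0 := by
    unfold yk
    rw [hG.zero]
    simp
  rcases lt_or_ge B 1 with hB1 | hB1
  · -- `B < 1`
    have hm0 : m = 0 := by
      have := hG.hp
      have h3 : (m : ℝ) < 1 := by linarith
      have h4 : m < 1 := by exact_mod_cast h3
      omega
    rw [hm0] at hm1
    refine ⟨0, ?_, ?_⟩
    · push_cast; positivity
    · refine (small h1 hB hB1 hl0 hl hl8 hm1 hs hs1).trans ?_
      have e1 : min B (B ^ 2) = B ^ 2 := min_eq_right (by nlinarith)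
      rw [e1]
      have e2 : s ^ 2 < 1 := by nlinarith
      have e3 : 0 < 1 - s ^ 2 := by linarith
      have e4 : 0 < B ^ 2 := by positivity
      have e5 : A0 / 144 * B ^ 2 * (1 - s ^ 2) ≤ B ^ 2 / 20 * (1 - s ^ 2) := by
        apply mul_le_mul_of_nonneg_right _ e3.le
        nlinarith
      have e6 : B ^ 2 / 20 * (1 - s ^ 2) ≤ B ^ 2 / 20 * (1 - s ^ 4) := by
        apply mul_le_mul_of_nonneg_left _ (by positivity)
        have : s ^ 4 = s ^ 2 * s ^ 2 := by ring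
        rw [this]
        nlinarith [sq_nonneg s]
      linarith
  · -- `B ≥ 1`
    have hlB := hlow hB1
    have hmin : ∀ (k : ℕ) (r : ℝ), 0 < r → r ≤ 1 → (∀ j : ℕ, yk B lam k r ≤ yk B lam j r) →
        4 * (lam * A0 / 9) * r ^ 4 < (B * r ^ 2 / 2 - k) ^ 2 - yk B lam k r ^ 2 := by
      intro k r hr hr1 hk
      have hr2 : r ^ 2 ≤ 1 := pow_le_one₀ hr.le hr1
      have hr2' : 0 < r ^ 2 := by positivity
      set t : ℝ := 2 / 3 * A0 * r ^ 2 with ht
      have ht0 : 0 ≤ t := by positivity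
      have ht1 : t ≤ 1 / 3 := by
        rw [ht]
        nlinarith
      have htle : t ≤ B * r ^ 2 * (1 / 2 - lam / (2 * B)) / (B * r ^ 2 / 2 + 1) := by
        rw [le_div_iff₀ (by positivity), ht]
        have e1 : 2 / 3 * (B * r ^ 2 / 2 + 1) ≤ B := by nlinarith
        have e2 : 2 / 3 * A0 * r ^ 2 * (B * r ^ 2 / 2 + 1)
            = (2 / 3 * (B * r ^ 2 / 2 + 1)) * (r ^ 2 * A0) := by ring
        have e3 : (2 / 3 * (B * r ^ 2 / 2 + 1)) * (r ^ 2 * A0) ≤ B * (r ^ 2 * A0) :=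
          mul_le_mul_of_nonneg_right e1 (by positivity)
        have e4 : B * (r ^ 2 * A0) ≤ B * r ^ 2 * (1 / 2 - lam / (2 * B)) := by
          rw [← mul_assoc]
          exact mul_le_mul_of_nonneg_left hA (by positivity)
        linarith
      have e := (h2 B lam k r hB hl0 hl hr hk).2 t ht0 htle
      have e1 : 3 / 4 * t ≤ t / (1 + t) := by
        rw [le_div_iff₀ (by linarith)]
        nlinarith
      have e2 : lam * r ^ 2 * (3 / 4 * t) ≤ lam * r ^ 2 * (t / (1 + t)) :=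
        mul_le_mul_of_nonneg_left e1 (by positivity)
      have e3 : lam * r ^ 2 * (3 / 4 * t) = lam * A0 * r ^ 4 / 2 := by rw [ht]; ring
      have e4 : 0 < lam * A0 * r ^ 4 := by positivity
      nlinarith
    obtain ⟨j, hj⟩ := prop_down h1 (c := lam * A0 / 9) hB hl0 hl (by positivity) hm1 hs hs1 hmin
    obtain ⟨k, hk⟩ := ex_min h1 hB hl0 hl hs
    refine ⟨k, (h2 B lam k s hB hl0 hl hs hk).1, ?_⟩
    have hkj := hk j
    unfold Gk at hj
    have e0 : min B (B ^ 2) = B := min_eq_left (by nlinarith)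
    rw [e0]
    have e2 : s ^ 2 < 1 := by nlinarith
    have e3 : 0 < 1 - s ^ 2 := by linarith
    have e5 : A0 / 144 * B * (1 - s ^ 2) ≤ lam * A0 / 9 * (1 - s ^ 2) := by
      apply mul_le_mul_of_nonneg_right _ e3.le
      nlinarith
    have e6 : lam * A0 / 9 * (1 - s ^ 2) ≤ lam * A0 / 9 * (1 - s ^ 4) := by
      apply mul_le_mul_of_nonneg_left _ (by positivity)
      have : s ^ 4 = s ^ 2 * s ^ 2 := by ring
      rw [this]
      nlinarith [sq_nonneg s]
    linarith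

end Pool.Agent.MFK.NU
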