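import Pool.Agent.Work.MP_8826fd_mp.NU.Stmts
import Pool.Agent.Work.MP_8826fd_mp.NF.I_Fin

/-! # MP_8826fd_mp, block NU: item FinU (scaling and translation) -/

set_option autoImplicit false

namespace Pool.Agent.MFK.NU

open MeasureTheory Set Filter Topology Pool.Agent.MFK.NF

theorem pr_FinU (h1 : StMUU) : StFinU := by
  obtain ⟨C, hC, hN₀⟩ := h1
  refine ⟨C, hC, fun B R N hB hR hN p Ω hO hsc hvol hrot => ?_⟩
  have hne := IFin.nd_eq p hR Ω
  have hO' : IsOpen (IFin.nd p R Ω) := by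
    rw [hne]
    exact hO.preimage (IFin.hom p hR).continuous
  have hsc' : IsSimplyConnected (IFin.nd p R Ω) := by
    rw [hne, Homeomorph.isSimplyConnected_preimage]
    exact hsc
  have himg := IFin.image_toR p hR Ω
  have hvol' : volume (IFin.nd p R Ω) = ENNReal.ofReal Real.pi := by
    have e1 := IFin.vol_aff p hR (toR (IFin.nd p R Ω))
    rw [himg, hvol, F3.vol_edisc p hR.le, IFin.vol_toR hO', mul_comm Real.pi,
      ENNReal.ofReal_mul (by positivity)] at e1
    have h0 : ENNReal.ofReal (R ^ 2) ≠ 0 := by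
      rw [Ne, ENNReal.ofReal_eq_zero, not_le]
      positivity
    exact ((ENNReal.mul_right_inj h0 ENNReal.ofReal_ne_top).1 e1).symm
  have hrot' : ∀ z ∈ IFin.nd p R Ω,
      Complex.exp (2 * Real.pi * Complex.I / N) * z ∈ IFin.nd p R Ω := by
    intro z hz
    have h2 := hrot _ hz
    rw [IFin.exp_re_im]
    show (p.1 + R * ((⟨Real.cos (2 * Real.pi / N), Real.sin (2 * Real.pi / N)⟩ : ℂ) * z).re,
      p.2 + R * ((⟨Real.cos (2 * Real.pi / N), Real.sin (2 * Real.pi / N)⟩ : ℂ) * z).im) ∈ Ω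
    have h3 : (p.1 + R * ((⟨Real.cos (2 * Real.pi / N), Real.sin (2 * Real.pi / N)⟩ : ℂ) * z).re,
        p.2 + R * ((⟨Real.cos (2 * Real.pi / N), Real.sin (2 * Real.pi / N)⟩ : ℂ) * z).im) =
        rotN N p (p.1 + R * z.re, p.2 + R * z.im) := by
      apply Prod.ext
      · simp only [Complex.mul_re, rotN]
        ring
      · simp only [Complex.mul_im, rotN]
        ring
    rw [h3]
    exact h2
  obtain ⟨hle, heq⟩ := hN₀ (B * R ^ 2) N (by positivity) hN (IFin.nd p R Ω) hO' hsc' hvol' hrot'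
  have s1 : lamN B Ω = (R ^ 2)⁻¹ * lamN (B * R ^ 2) (toR (IFin.nd p R Ω)) := by
    have h2 := sc B R p (toR (IFin.nd p R Ω)) hR (IFin.isOpen_toR hO')
    rw [← h2]
    congr 1
    exact himg.symm
  have s2 : lamN B (edisc p R) = (R ^ 2)⁻¹ * lamN (B * R ^ 2) disc := by
    have h2 := sc B R p disc hR IFin.isOpen_disc
    rw [← h2]
    congr 1
    exact F2.edisc_image hR p
  have hR2 : (0 : ℝ) < (R ^ 2)⁻¹ := by positivity
  refine ⟨?_, fun he => ?_⟩
  · rw [s1, s2]
    exact mul_le_mul_of_nonneg_left hle hR2.le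
  · rw [s1, s2] at he
    have h3 := heq (mul_left_cancel₀ hR2.ne' he)
    rw [F2.edisc_image hR p, ← IFin.toR_ball, ← h3]
    exact himg.symm

end Pool.Agent.MFK.NU
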