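import Pool.Agent.Work.MP_8826fd_mp.NU.Stmts

/-! # MP_8826fd_mp, block NU: item Gr -/

set_option autoImplicit false

namespace Pool.Agent.MFK.NU

open MeasureTheory Set Filter Topology Pool.Agent.MFK.NF

/-- spectral data of the disc (proof of `pr_Sp` in `NF/Gk.lean`, with the signs) -/
theorem pr_Gr : StGr := by
  intro B hB
  obtain ⟨lam, m, hl0, hlB, hnn, hz⟩ := Asm.rGround' B hB
  have hrad : ∀ n : ℤ, Rad B lam n (FK B lam n) := fun n => Asm.rRad' B lam n hB hlB
  have hF1 : ∀ n : ℤ, 0 < FK B lam n 1 := fun n => (hrad n).pos 1 zero_le_one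
  have hD : Data B lam m (fun n => FK B lam n) := by
    refine ⟨hl0, hlB, hrad, fun n => div_nonneg (hnn n) (hF1 n).le, ?_⟩
    unfold dtn
    rw [show deriv (radf (m : ℤ) (FK B lam (m : ℤ))) 1 = 0 from hz]
    simp
  have hz' : deriv (gk B lam m) 1 = 0 := hz
  have hp1 := gk_pos hB hlB m one_pos
  -- `p > 0`: otherwise use the ladder relation at `1` and `y_(m+1) ≥ 0`
  have hprod := gk_prod hB hl0 hlB m one_pos
  rw [hz'] at hprod
  have hnn1 : 0 ≤ deriv (gk B lam (m + 1)) 1 := by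
    have := hnn ((m + 1 : ℕ) : ℤ)
    exact this
  have hp2 := gk_pos hB hlB (m + 1) one_pos
  have hp : 0 < B / 2 - m := by
    rcases Nat.eq_zero_or_pos m with h0 | h0
    · rw [h0]; simpa using hB
    · -- `y_(m-1) ≥ 0` gives `p (p+1) ≥ lam > 0` and `y_(m+1) ≥ 0` gives `p (p-1) ≤ lam`
      obtain ⟨j, rfl⟩ : ∃ j, m = j + 1 := ⟨m - 1, by omega⟩
      have hpr := gk_prod hB hl0 hlB j one_pos
      rw [hz'] at hpr
      have hnj : 0 ≤ deriv (gk B lam j) 1 := by
        have := hnn ((j : ℕ) : ℤ)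
        exact this
      have hpj := gk_pos hB hlB j one_pos
      have hyj : 0 ≤ 1 * deriv (gk B lam j) 1 / gk B lam j 1 := by positivity
      have hyp : 0 ≤ 1 * deriv (gk B lam (j + 1 + 1)) 1 / gk B lam (j + 1 + 1) 1 := by positivity
      push_cast at hprod hpr ⊢
      simp only [one_pow, mul_one, mul_zero, zero_div, zero_add, sub_zero] at hprod hpr hyj hyp
      set yj := 1 * deriv (gk B lam j) 1 / gk B lam j 1 with hyjd
      set yp := 1 * deriv (gk B lam (j + 1 + 1)) 1 / gk B lam (j + 1 + 1) 1 with hypd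
      have hj : (0 : ℝ) ≤ j := Nat.cast_nonneg j
      by_contra hcon
      push Not at hcon
      -- (j+1+B/2)(j+B/2 - yj) = lam + (2j+1)B, so p(p+1) = ... 
      have e1 : (j + 1 + B / 2) * (j + B / 2) ≥ lam + (2 * j + 1) * B := by nlinarith
      have e2 : (B / 2 - (j + 1)) * (B / 2 - (j + 1) + 1) ≥ lam := by nlinarith
      have e3 : (j + 1 + 1 + B / 2) * (j + 1 + B / 2) ≤ lam + (2 * (j + 1) + 1) * B := by nlinarith
      have e4 : (B / 2 - (j + 1)) * (B / 2 - (j + 1) - 1) ≤ lam := by nlinarith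
      nlinarith
  exact ⟨lam, m, ⟨hB, hl0, hlB, hz', hp, Asm.stLB B lam m _ hB hD⟩, hnn⟩

end Pool.Agent.MFK.NU
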