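import Pool.Agent.Work.MP_8826fd_mp.NU.Stmts

/-!
# MP_8826fd_mp, block NU, item Low

Lower bound of the energy of the disc.  Comparison of `r g'` with `h g`: for `W = r g' - h g` and
`M = exp (∫ h/r)` one has `(W M)' > 0` as long as `h² + r h' ≤ z² - x/8` and `lam < B/16`.
-/

set_option autoImplicit false

namespace Pool.Agent.MFK.NU

open MeasureTheory Set Filter Topology Pool.Agent.MFK.NF

namespace ILow

/-- comparison on the first interval -/
theorem first {B lam : ℝ} (hB : 0 < B) (hl : lam < B) (hlow : lam < B / 16) (k : ℕ) {r1 : ℝ}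
    (h1 : 0 < r1) (c0 c1 c2 : ℝ) (hc0 : 0 ≤ c0) (hk0 : k = 0 → c0 = 0)
    (hcmp : ∀ x : ℝ, 0 < x → x < B * r1 ^ 2 / 2 →
      (c0 + c1 * x + c2 * x ^ 2) ^ 2 + 2 * x * (c1 + 2 * c2 * x) ≤ (x - k) ^ 2 - x / 8) :
    (c0 + c1 * (B * r1 ^ 2 / 2) + c2 * (B * r1 ^ 2 / 2) ^ 2) * gk B lam k r1
      < r1 * deriv (gk B lam k) r1 := by
  set g := gk B lam k with hg
  let h : ℝ → ℝ := fun r => c0 + c1 * (B * r ^ 2 / 2) + c2 * (B * r ^ 2 / 2) ^ 2
  let W : ℝ → ℝ := fun r => r * deriv g r - h r * g r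
  let M : ℝ → ℝ := fun r => r ^ c0 * Real.exp (c1 * (B * r ^ 2 / 2) / 2 + c2 * (B * r ^ 2 / 2) ^ 2 / 4)
  have hgc : Continuous g := gk_cont hB hl k
  have hgd : Continuous (deriv g) := gk_dcont hB hl k
  have hhc : Continuous h := by fun_prop
  have hWc : Continuous W := by fun_prop
  have hMc : Continuous M := by
    have a1 : Continuous fun r : ℝ => r ^ c0 := Real.continuous_rpow_const hc0
    fun_prop
  have hd : ∀ r, 0 < r → HasDerivAt (fun t => W t * M t)
      (M r * (g r / r * ((B * r ^ 2 / 2 - k) ^ 2 - lam * r ^ 2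
        - 2 * (B * r ^ 2 / 2) * (c1 + 2 * c2 * (B * r ^ 2 / 2)) - h r ^ 2))) r := by
    intro r hr
    have d0 : HasDerivAt (fun t : ℝ => B * t ^ 2 / 2) (B * r) r :=
      (((hasDerivAt_pow 2 r).const_mul B).div_const 2).congr_deriv (by norm_num; ring)
    have d1 : HasDerivAt h (c1 * (B * r) + c2 * (2 * (B * r ^ 2 / 2) * (B * r))) r :=
      (((d0.const_mul c1).const_add c0).fun_add ((d0.pow 2).const_mul c2)).congr_deriv
        (by norm_num)
    have d2 : HasDerivAt W _ r := (gk_ode hB hl k hr).fun_sub (d1.fun_mul (gk_d1 hB hl k r))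
    have d3 : HasDerivAt (fun t : ℝ => t ^ c0) (c0 * r ^ (c0 - 1)) r :=
      Real.hasDerivAt_rpow_const (Or.inl hr.ne')
    have d4 : HasDerivAt (fun t : ℝ => c1 * (B * t ^ 2 / 2) / 2 + c2 * (B * t ^ 2 / 2) ^ 2 / 4)
        (c1 * (B * r) / 2 + c2 * (2 * (B * r ^ 2 / 2) * (B * r)) / 4) r :=
      (((d0.const_mul c1).div_const 2).fun_add (((d0.pow 2).const_mul c2).div_const 4)).congr_deriv
        (by norm_num)
    have d5 : HasDerivAt M _ r := d3.fun_mul d4.exp
    refine (d2.fun_mul d5).congr_deriv ?_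
    have e1 : r ^ (c0 - 1) = r ^ c0 / r := Real.rpow_sub_one hr.ne' c0
    rw [e1]
    show _ = (r ^ c0 * Real.exp (c1 * (B * r ^ 2 / 2) / 2 + c2 * (B * r ^ 2 / 2) ^ 2 / 4)) * _
    change _ * (r ^ c0 * Real.exp (c1 * (B * r ^ 2 / 2) / 2 + c2 * (B * r ^ 2 / 2) ^ 2 / 4))
      + (r * deriv g r - (c0 + c1 * (B * r ^ 2 / 2) + c2 * (B * r ^ 2 / 2) ^ 2) * g r) * _ = _
    generalize Real.exp (c1 * (B * r ^ 2 / 2) / 2 + c2 * (B * r ^ 2 / 2) ^ 2 / 4) = E
    generalize r ^ c0 = R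
    generalize hgr : g r = G
    have hgr' : gk B lam k r = G := hgr
    rw [hgr']
    generalize hgr2 : deriv g r = G'
    change (r * (((↑k / r - B * r / 2) ^ 2 - lam) * G) -
          ((c1 * (B * r) + c2 * (2 * (B * r ^ 2 / 2) * (B * r))) * G
            + (c0 + c1 * (B * r ^ 2 / 2) + c2 * (B * r ^ 2 / 2) ^ 2) * G')) * _ + _ = R * E * (G / r * ((B * r ^ 2 / 2 - k) ^ 2 - lam * r ^ 2
        - 2 * (B * r ^ 2 / 2) * (c1 + 2 * c2 * (B * r ^ 2 / 2))
        - (c0 + c1 * (B * r ^ 2 / 2) + c2 * (B * r ^ 2 / 2) ^ 2) ^ 2))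
    field_simp
    ring
  have hmono : StrictMonoOn (fun t => W t * M t) (Icc 0 r1) := by
    refine strictMonoOn_of_deriv_pos (convex_Icc 0 r1) (hWc.mul hMc).continuousOn ?_
    intro r hr
    rw [interior_Icc] at hr
    rw [(hd r hr.1).deriv]
    have hr0 := hr.1
    have hgp : 0 < g r := gk_pos hB hl k hr0
    have hMp : 0 < M r := mul_pos (Real.rpow_pos_of_pos hr0 _) (Real.exp_pos _)
    have hx : 0 < B * r ^ 2 / 2 := by positivity
    have hx1 : B * r ^ 2 / 2 < B * r1 ^ 2 / 2 := by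
      have : r ^ 2 < r1 ^ 2 := by
        have := hr.2
        nlinarith
      nlinarith
    have hc := hcmp _ hx hx1
    have hlr : lam * r ^ 2 < B * r ^ 2 / 2 / 8 := by
      have : 0 < r ^ 2 := by positivity
      nlinarith
    refine mul_pos hMp (mul_pos (div_pos hgp hr0) ?_)
    change 0 < (B * r ^ 2 / 2 - k) ^ 2 - lam * r ^ 2
        - 2 * (B * r ^ 2 / 2) * (c1 + 2 * c2 * (B * r ^ 2 / 2))
        - (c0 + c1 * (B * r ^ 2 / 2) + c2 * (B * r ^ 2 / 2) ^ 2) ^ 2
    linarith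
  have hlt := hmono ⟨le_rfl, h1.le⟩ ⟨h1.le, le_rfl⟩ h1
  have hW0 : W 0 = 0 := by
    change 0 * deriv g 0 - h 0 * g 0 = 0
    rcases Nat.eq_zero_or_pos k with hk | hk
    · have : h 0 = 0 := by
        change c0 + c1 * (B * 0 ^ 2 / 2) + c2 * (B * 0 ^ 2 / 2) ^ 2 = 0
        rw [hk0 hk]; ring
      rw [this]; ring
    · have : g 0 = 0 := by
        rw [hg]
        unfold gk radf
        have hk' : ((k : ℤ)).natAbs = k := Int.natAbs_natCast k
        rw [hk', zero_pow (by omega), zero_mul]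
      rw [this]; ring
  have hlt2 : 0 < W r1 * M r1 := by
    have : W 0 * M 0 = 0 := by rw [hW0, zero_mul]
    rw [← this]
    exact hlt
  have hMp : 0 < M r1 := mul_pos (Real.rpow_pos_of_pos h1 _) (Real.exp_pos _)
  have hW1 : 0 < W r1 := by
    by_contra hcon
    push Not at hcon
    have := mul_nonpos_of_nonpos_of_nonneg hcon hMp.le
    linarith
  have hW2 : 0 < r1 * deriv g r1
      - (c0 + c1 * (B * r1 ^ 2 / 2) + c2 * (B * r1 ^ 2 / 2) ^ 2) * g r1 := hW1
  linarith

/-- comparison on the second interval -/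
theorem second {B lam : ℝ} (hB : 0 < B) (hl : lam < B) (hlow : lam < B / 16) (k : ℕ) {r1 : ℝ}
    (h1 : 0 < r1) (h2 : r1 ≤ 1) (hpos : 0 < r1 * deriv (gk B lam k) r1)
    (hcmp : ∀ x : ℝ, B * r1 ^ 2 / 2 < x → x / 8 ≤ (x - k) ^ 2) :
    0 < deriv (gk B lam k) 1 := by
  have hgd : Continuous (deriv (gk B lam k)) := gk_dcont hB hl k
  have hmono : MonotoneOn (fun t => t * deriv (gk B lam k) t) (Icc r1 1) := by
    refine monotoneOn_of_deriv_nonneg (convex_Icc r1 1) (by fun_prop) ?_ ?_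
    · intro r hr
      rw [interior_Icc] at hr
      exact (gk_ode hB hl k (h1.trans hr.1)).differentiableAt.differentiableWithinAt
    · intro r hr
      rw [interior_Icc] at hr
      have hr0 : 0 < r := h1.trans hr.1
      rw [(gk_ode hB hl k hr0).deriv]
      have hgp : 0 < gk B lam k r := gk_pos hB hl k hr0
      have hx1 : B * r1 ^ 2 / 2 < B * r ^ 2 / 2 := by
        have : r1 ^ 2 < r ^ 2 := by
          have := hr.1
          nlinarith
        nlinarith
      have hc := hcmp _ hx1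
      have hlr : lam * r ^ 2 < B * r ^ 2 / 2 / 8 := by
        have : 0 < r ^ 2 := by positivity
        nlinarith
      have e : r * ((((k : ℝ) / r - B * r / 2) ^ 2 - lam) * gk B lam k r)
          = gk B lam k r / r * ((B * r ^ 2 / 2 - k) ^ 2 - lam * r ^ 2) := by
        field_simp
        ring
      rw [e]
      refine mul_nonneg (div_pos hgp hr0).le ?_
      linarith
  have h := hmono ⟨le_rfl, h2⟩ ⟨h2, le_rfl⟩ h2
  simp only [one_mul] at h
  linarith

end ILow

/-- ITEM Low -/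
theorem pr_Low : StLow := by
  intro B lam m hG hB1
  have hB := hG.hB
  have hl := hG.lam_lt
  by_contra hcon
  push Not at hcon
  have hz := hG.zero
  have hp := hG.hp
  suffices hs : 0 < deriv (gk B lam m) 1 by linarith
  rcases Nat.eq_zero_or_pos m with hm | hm
  · subst hm
    have hr1 : 0 < Real.sqrt (1 / B) := Real.sqrt_pos.2 (by positivity)
    have hr2 : Real.sqrt (1 / B) ^ 2 = 1 / B := Real.sq_sqrt (by positivity)
    have hr3 : Real.sqrt (1 / B) ≤ 1 := by
      refine Real.sqrt_le_one.2 ?_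
      rw [div_le_one hB]
      exact hB1
    have hx : B * Real.sqrt (1 / B) ^ 2 / 2 = 1 / 2 := by
      rw [hr2]
      field_simp
    have hf := ILow.first hB hl hcon 0 hr1 0 (-1 / 16) (1 / 8) le_rfl (fun _ => rfl) (by
      intro x hx0 hx1
      rw [hx] at hx1
      push_cast
      have e : (0 + -1 / 16 * x + 1 / 8 * x ^ 2) ^ 2 = x ^ 2 * ((1 - 2 * x) / 16) ^ 2 := by ring
      rw [e]
      have h3 : ((1 - 2 * x) / 16) ^ 2 ≤ 1 := by nlinarith
      have h4 : ((1 - 2 * x) / 16) ^ 2 ≤ 1 / 2 := by nlinarith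
      have h5 : 0 < x ^ 2 := by positivity
      nlinarith)
    rw [hx] at hf
    refine ILow.second hB hl hcon 0 hr1 hr3 ?_ ?_
    · refine lt_of_eq_of_lt ?_ hf
      norm_num
    · intro x hx1
      rw [hx] at hx1
      push_cast
      nlinarith
  · have hm1 : (1 : ℝ) ≤ m := by exact_mod_cast hm
    set s := Real.sqrt m with hs
    have hs2 : s ^ 2 = m := Real.sq_sqrt (by linarith)
    have hs1 : 1 ≤ s := by
      rw [hs]
      exact Real.one_le_sqrt.2 hm1
    have hsm : s ≤ m := by nlinarith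
    have hcmp1 : ∀ x : ℝ, (2 / 5 * s + m / 2 + -1 / 2 * x + 0 * x ^ 2) ^ 2
        + 2 * x * (-1 / 2 + 2 * 0 * x) ≤ (x - m) ^ 2 - x / 8 := by
      intro x
      rw [← hs2] at hsm hm1 ⊢
      nlinarith [sq_nonneg (3 / 4 * (x - s ^ 2) + (2 / 5 * s + 7 / 8) / 2), sq_nonneg (s - 1)]
    have hcmp2 : ∀ x : ℝ, m + 4 / 5 * s ≤ x → x / 8 ≤ (x - m) ^ 2 := by
      intro x hx
      have hz1 : 4 / 5 * s ≤ x - m := by linarith
      have : 0 ≤ (x - m - 4 / 5 * s) * (x - m + 4 / 5 * s - 1 / 8) := by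
        apply mul_nonneg <;> linarith
      nlinarith
    rcases le_or_gt (B / 2) (m + 4 / 5 * s) with hc | hc
    · have hf := ILow.first hB hl hcon m one_pos (2 / 5 * s + m / 2) (-1 / 2) 0 (by positivity)
        (fun h => absurd h (by omega)) (fun x _ _ => hcmp1 x)
      have hgp : 0 < gk B lam m 1 := gk_pos hB hl m one_pos
      have h5 : 0 ≤ (2 / 5 * s + m / 2 + -1 / 2 * (B * 1 ^ 2 / 2) + 0 * (B * 1 ^ 2 / 2) ^ 2) := by
        linarith
      have h6 := mul_nonneg h5 hgp.le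
      linarith
    · set r1 := Real.sqrt (2 * (m + 4 / 5 * s) / B) with hr
      have hr1 : 0 < r1 := Real.sqrt_pos.2 (by positivity)
      have hr2 : r1 ^ 2 = 2 * (m + 4 / 5 * s) / B := Real.sq_sqrt (by positivity)
      have hr3 : r1 ≤ 1 := by
        refine Real.sqrt_le_one.2 ?_
        rw [div_le_one hB]
        linarith
      have hx : B * r1 ^ 2 / 2 = m + 4 / 5 * s := by
        rw [hr2]
        field_simp
      have hf := ILow.first hB hl hcon m hr1 (2 / 5 * s + m / 2) (-1 / 2) 0 (by positivity)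
        (fun h => absurd h (by omega)) (fun x _ _ => hcmp1 x)
      rw [hx] at hf
      refine ILow.second hB hl hcon m hr1 hr3 ?_ ?_
      · refine lt_of_eq_of_lt ?_ hf
        ring
      · intro x hx1
        rw [hx] at hx1
        exact hcmp2 x hx1.le

end Pool.Agent.MFK.NU
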