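import Pool.Agent.Work.MP_8826fd_mp.NU.Stmts
import Pool.Agent.Work.MP_8826fd_mp.NF.I_MU

/-! # MP_8826fd_mp, block NU: item MUU (assembly for area `π`, centre `0`) -/

set_option autoImplicit false

namespace Pool.Agent.MFK.NU

open MeasureTheory Set Filter Topology Pool.Agent.MFK.NF

open IMU in
theorem pr_MUU (hGr : StGr) (hUp : StUp) (hLow : StLow) (hEff : StEff) (hSup : StSup) (hRdU : StRdU)
    (hGau : StGau) (hDen : StDen) (hRay : StRay)
    (hArea : StArea) (hEn : StEn) (hC2 : StC2) : StMUU := by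
  obtain ⟨A0, hA0, hA1, hUp⟩ := hUp
  set K := Real.exp (8 / A0) with hK
  have hK1 : 1 ≤ K := Real.one_le_exp (by positivity)
  refine ⟨288 * K ^ 2 / A0 + 2, by positivity, fun B N hB hN Ω hO hsc hvol hrot => ?_⟩
  obtain ⟨lam, m, G⟩ := hGr B hB
  have S := G.toSp
  obtain ⟨hA2, hlB2⟩ := hUp B lam m G
  have hN2' : (2 : ℝ) ≤ N := by
    have h1 : 0 ≤ 288 * K ^ 2 / A0 := by positivity
    nlinarith
  have hN2 : 2 ≤ N := by exact_mod_cast hN2'
  have hN0 : (0 : ℝ) < N := by linarith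
  have hne : Ω ≠ univ := by
    intro h
    rw [h] at hvol
    have h2 : volume (univ : Set ℂ) = ⊤ := by
      have := (Complex.volume_preserving_equiv_real_prod).measure_preimage
        (nullMeasurableSet_univ (α := ℝ × ℝ))
      rw [preimage_univ] at this
      rw [this]
      simp
    rw [h2] at hvol
    exact ENNReal.ofReal_ne_top hvol.symm
  obtain ⟨f, F, a, hCM⟩ := hC2 N Ω hN2 hO hsc hne hrot
  have hsum : (∑' j : ℕ, ENNReal.ofReal (cc a j)) = 1 := by
    have h1 := (hArea N Ω f F a hCM).1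
    rw [hvol] at h1
    have h2 : ENNReal.ofReal Real.pi ≠ 0 := by
      rw [Ne, ENNReal.ofReal_eq_zero, not_le]
      exact Real.pi_pos
    have h3 : ENNReal.ofReal Real.pi * 1 = ENNReal.ofReal Real.pi * ∑' j : ℕ, ENNReal.ofReal (cc a j) := by
      rw [mul_one]; exact h1
    exact ((ENNReal.mul_right_inj h2 ENNReal.ofReal_ne_top).1 h3).symm
  have hS := hasSum_cc hsum
  have hs0 : 0 < ‖a 1‖ := norm_pos_iff.2 (a1 hCM)
  have hcf := cf hCM hS
  have hs1 : ‖a 1‖ ≤ 1 := by
    have h1 : cc a 1 ≤ 1 := by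
      rw [← hS.tsum_eq]
      exact hS.summable.le_tsum 1 (fun j _ => cc_nonneg a j)
    rw [hcf.c1] at h1
    have := abs_le_of_sq_le_sq' (a := ‖a 1‖) (b := 1) (by rw [one_pow]; exact h1) zero_le_one
    exact this.2
  have hmu := tail hS
  rcases lt_or_eq_of_le hs1 with hs | hs
  · -- not the disc
    have hmu0 : 0 < 1 - ‖a 1‖ ^ 2 := by nlinarith
    obtain ⟨k, hk, hW⟩ := hEff B lam A0 m G hA0 hA1 hA2 hlB2 (hLow B lam m G) ‖a 1‖ hs0 hs
    obtain ⟨hp, hI1, hI2, hE⟩ := hRdU B lam K k N ‖a 1‖ (cc a) hB S.lam_pos S.lam_lt hK1 (by omega)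
      hs0 hs1 hk (fun t ht1 ht2 => hSup B lam A0 k t ‖a 1‖ hB S.lam_pos S.lam_lt hA0 hA2 ht1 ht2) hcf
    have hg : 0 < gk B lam k ‖a 1‖ := gk_pos hB S.lam_lt k hs0
    set g := gk B lam k ‖a 1‖ with hgdef
    set C := K ^ 2 * g ^ 2 with hCdef
    have hC : 0 < C := by positivity
    obtain ⟨φ, hφ⟩ := hGau F hCM.Fd
    set Ψ := Ps B lam k ‖a 1‖ with hΨ
    have hsm : ContDiff ℝ 2 Ψ := Ps_smooth S.hB S.lam_lt k _
    obtain ⟨hEn1, hEn2⟩ := hEn N Ω f F a φ B C k Ψ hCM hφ hsm hsum (fun r hr => by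
      rw [hΨ, radf_Ps]; exact hp r hr)
    have hcont := (hDen N Ω f F a φ B k Ψ hCM hφ hsm).1
    simp only [hΨ, radf_Ps, deriv_Ps S.hB S.lam_lt] at hEn1 hEn2
    rw [← hΨ] at hEn1 hEn2
    set U := UT B k Ψ φ f with hUdef
    set I1 := ∫ r in Ioo (0 : ℝ) 1, 2 * r * ((‖a 1‖ * deriv (gk B lam k) (‖a 1‖ * r)) ^ 2
      + gk B lam k (‖a 1‖ * r) ^ 2 * ((k - B * Aa (cc a) r / 2) / r) ^ 2) with hI1d
    set I2 := ∫ r in Ioo (0 : ℝ) 1, gk B lam k (‖a 1‖ * r) ^ 2 * Aad (cc a) r with hI2d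
    have hAad : ∀ r ∈ Ioo (0 : ℝ) 1, 0 ≤ Aad (cc a) r := fun r hr => ((hArea N Ω f F a hCM).2 r hr).1
    have hM : (∫⁻ z in Ω, ENNReal.ofReal (‖U z‖ ^ 2)) = ENNReal.ofReal (Real.pi * I2) := by
      rw [hEn2, hI2d, ← integral_const_mul]
      rw [ofReal_integral_eq_lintegral_ofReal]
      · exact hI2.const_mul _
      · filter_upwards [self_mem_ae_restrict measurableSet_Ioo] with r hr
        have := hAad r hr
        have := Real.pi_pos
        simp only [Pi.zero_apply]
        positivity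
    have hE1 : (∫⁻ r in Ioo (0 : ℝ) 1, ENNReal.ofReal (Real.pi * (2 * r *
        ((‖a 1‖ * deriv (gk B lam k) (‖a 1‖ * r)) ^ 2
          + gk B lam k (‖a 1‖ * r) ^ 2 * ((k - B * Aa (cc a) r / 2) / r) ^ 2))))
        = ENNReal.ofReal (Real.pi * I1) := by
      rw [hI1d, ← integral_const_mul]
      rw [ofReal_integral_eq_lintegral_ofReal]
      · exact hI1.const_mul _
      · filter_upwards [self_mem_ae_restrict measurableSet_Ioo] with r hr
        have := Real.pi_pos
        have := hr.1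
        simp only [Pi.zero_apply]
        positivity
    rw [hE1, hmu] at hEn1
    have hI10 : 0 ≤ I1 := by
      rw [hI1d]
      refine setIntegral_nonneg measurableSet_Ioo fun r hr => ?_
      have := hr.1
      positivity
    have hI20 : 0 ≤ I2 := by
      rw [hI2d]
      refine setIntegral_nonneg measurableSet_Ioo fun r hr => ?_
      have := hAad r hr
      positivity
    have hpi := Real.pi_pos
    set e := B ^ 2 * C * (2 * Real.pi / N * (1 - ‖a 1‖ ^ 2)) with he
    have he0 : 0 ≤ e := by positivity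
    have hEle : (∫⁻ z in Ω, ENNReal.ofReal (edC B U z)) ≤ ENNReal.ofReal (Real.pi * I1 + e) := by
      refine hEn1.trans (le_of_eq ?_)
      rw [← ENNReal.ofReal_mul (by positivity), ← ENNReal.ofReal_mul (by positivity),
        ← ENNReal.ofReal_add (by positivity) (by positivity)]
    have hEfin : (∫⁻ z in Ω, ENNReal.ofReal (edC B U z)) ≠ ⊤ :=
      ne_top_of_le_ne_top ENNReal.ofReal_ne_top hEle
    have hEr : (∫⁻ z in Ω, ENNReal.ofReal (edC B U z)).toReal ≤ Real.pi * I1 + e := by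
      have := ENNReal.toReal_mono ENNReal.ofReal_ne_top hEle
      rwa [ENNReal.toReal_ofReal (by positivity)] at this
    have hMr : (∫⁻ z in Ω, ENNReal.ofReal (‖U z‖ ^ 2)).toReal = Real.pi * I2 := by
      rw [hM, ENNReal.toReal_ofReal (by positivity)]
    -- the excess is negative
    have hWW : WW B lam k ‖a 1‖ ≤ -(A0 / 144 * min B (B ^ 2) * (1 - ‖a 1‖ ^ 2)) * g ^ 2 := by
      have h1 : WW B lam k ‖a 1‖ = (yk B lam k ‖a 1‖ - lam * (1 - ‖a 1‖ ^ 2) / 2) * g ^ 2 := by
        unfold WW yk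
        rw [← hgdef]
        field_simp
      rw [h1]
      exact mul_le_mul_of_nonneg_right hW (by positivity)
    have hmin : 0 < min B (B ^ 2) := lt_min hB (by positivity)
    have hNK : 4 * K ^ 2 * B ^ 2 / N < 2 * (A0 / 144 * min B (B ^ 2)) := by
      rw [div_lt_iff₀ hN0]
      have h1 : 288 * K ^ 2 / A0 * (1 + B) < N := by
        have h2 : (288 * K ^ 2 / A0 + 2) * (1 + B) ≤ N := hN
        rw [add_mul] at h2
        linarith
      have h3 : B ^ 2 ≤ min B (B ^ 2) * (1 + B) := by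
        rcases le_total B (B ^ 2) with h | h
        · rw [min_eq_left h]; nlinarith
        · rw [min_eq_right h]; nlinarith [sq_nonneg B, mul_pos hB (pow_pos hB 2)]
      have h4 : 288 * K ^ 2 * (1 + B) < N * A0 := by
        have h5 : 288 * K ^ 2 / A0 * (1 + B) = 288 * K ^ 2 * (1 + B) / A0 := by ring
        rw [h5, div_lt_iff₀ hA0] at h1
        exact h1
      have h6 : 4 * K ^ 2 * B ^ 2 ≤ 4 * K ^ 2 * (min B (B ^ 2) * (1 + B)) :=
        mul_le_mul_of_nonneg_left h3 (by positivity)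
      have h7 : min B (B ^ 2) * (288 * K ^ 2 * (1 + B)) < min B (B ^ 2) * (N * A0) :=
        mul_lt_mul_of_pos_left h4 hmin
      have h8 : 4 * K ^ 2 * (min B (B ^ 2) * (1 + B)) = min B (B ^ 2) * (288 * K ^ 2 * (1 + B)) / 72 := by ring
      have h9 : 2 * (A0 / 144 * min B (B ^ 2)) * N = min B (B ^ 2) * (N * A0) / 72 := by ring
      rw [h9]
      linarith
    have hneg : Real.pi * I1 + e < lam * (Real.pi * I2) := by
      have h1 : I1 - lam * I2 ≤ (1 - ‖a 1‖ ^ 2) * g ^ 2 *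
          (-(2 * (A0 / 144 * min B (B ^ 2))) + 2 * K ^ 2 * B ^ 2 / N) := by
        refine hE.trans ?_
        have h0 : 2 * K ^ 2 * B ^ 2 * (1 - ‖a 1‖ ^ 2) / N * g ^ 2
            = (1 - ‖a 1‖ ^ 2) * g ^ 2 * (2 * K ^ 2 * B ^ 2 / N) := by ring
        rw [h0]
        nlinarith
      have h2 : Real.pi * I1 + e - lam * (Real.pi * I2)
          ≤ Real.pi * ((1 - ‖a 1‖ ^ 2) * g ^ 2 *
            (-(2 * (A0 / 144 * min B (B ^ 2))) + 4 * K ^ 2 * B ^ 2 / N)) := by
        have h3 : e = Real.pi * ((1 - ‖a 1‖ ^ 2) * g ^ 2 * (2 * K ^ 2 * B ^ 2 / N)) := by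
          rw [he, hCdef]; ring
        have h4 : 4 * K ^ 2 * B ^ 2 / N = 2 * K ^ 2 * B ^ 2 / N + 2 * K ^ 2 * B ^ 2 / N := by ring
        rw [h3, h4]
        have h5 := mul_le_mul_of_nonneg_left h1 hpi.le
        nlinarith
      have h7 : Real.pi * ((1 - ‖a 1‖ ^ 2) * g ^ 2 *
            (-(2 * (A0 / 144 * min B (B ^ 2))) + 4 * K ^ 2 * B ^ 2 / N)) < 0 := by
        refine mul_neg_of_pos_of_neg hpi (mul_neg_of_pos_of_neg (by positivity) (by linarith))
      linarith
    have hM0 : 0 < Real.pi * I2 := by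
      by_contra hcon
      push Not at hcon
      have : lam * (Real.pi * I2) ≤ 0 := mul_nonpos_of_nonneg_of_nonpos S.lam_pos.le hcon
      have : 0 ≤ Real.pi * I1 + e := by positivity
      linarith
    have hfin := hRay B ((Real.pi * I1 + e) / (Real.pi * I2)) Ω U hO hcont hEfin
      (by rw [hM]; exact ENNReal.ofReal_ne_top)
      (by rw [hM, Ne, ENNReal.ofReal_eq_zero, not_le]; exact hM0)
      (by rw [hMr, div_mul_cancel₀ _ hM0.ne']; exact hEr)
    have hlt : (Real.pi * I1 + e) / (Real.pi * I2) < lam := by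
      rw [div_lt_iff₀ hM0]
      exact hneg
    have hfinal : lamN B (toR Ω) < lamN B disc := hfin.trans_lt (hlt.trans_le S.lb)
    exact ⟨hfinal.le, fun h => absurd h hfinal.ne⟩
  · -- the disc
    have hz : ∀ j, 2 ≤ j → a j = 0 := by
      intro j hj
      have h1 : (∑' j : ℕ, ENNReal.ofReal (cc a (j + 2))) = 0 := by
        rw [hmu, hs]
        norm_num
      have h2 := ENNReal.tsum_eq_zero.1 h1 (j - 2)
      rw [Nat.sub_add_cancel hj, ENNReal.ofReal_eq_zero] at h2
      have h3 : cc a j = 0 := le_antisymm h2 (cc_nonneg a j)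
      unfold cc at h3
      rcases mul_eq_zero.1 h3 with h4 | h4
      · have : j = 0 := by exact_mod_cast h4
        omega
      · exact norm_eq_zero.1 (pow_eq_zero_iff (two_ne_zero)|>.1 h4)
    have hF : ∀ w ∈ Metric.ball (0 : ℂ) 1, F w = a 1 * w := by
      intro w hw
      refine (hCM.ser w hw).unique ?_
      have h1 : HasSum (fun j : ℕ => a j * w ^ j) (a 1 * w ^ 1) := by
        refine hasSum_single 1 fun j hj => ?_
        rcases Nat.lt_or_ge j 2 with h2 | h2
        · have : j = 0 := by omega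
          rw [this, a0 hCM, zero_mul]
        · rw [hz j h2, zero_mul]
      simpa using h1
    have hΩ : Ω = Metric.ball 0 1 := by
      ext z
      constructor
      · intro hz
        have h1 := hCM.fm hz
        have h2 := hF _ h1
        rw [hCM.Ff z hz] at h2
        rw [h2, mem_ball_zero_iff, norm_mul, hs, one_mul]
        rwa [mem_ball_zero_iff] at h1
      · intro hz
        rw [mem_ball_zero_iff] at hz
        have h1 : (a 1)⁻¹ * z ∈ Metric.ball (0 : ℂ) 1 := by
          rw [mem_ball_zero_iff, norm_mul, norm_inv, hs, inv_one, one_mul]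
          exact hz
        have h2 := hF _ h1
        rw [mul_inv_cancel_left₀ (a1 hCM)] at h2
        rw [← h2]
        exact hCM.Fm h1
    have hR : toR Ω = disc := by
      ext x
      rw [hΩ]
      show (⟨x.1, x.2⟩ : ℂ) ∈ Metric.ball (0 : ℂ) 1 ↔ x.1 ^ 2 + x.2 ^ 2 < 1
      rw [mem_ball_zero_iff, ← sq_lt_one_iff₀ (norm_nonneg _), ← Complex.normSq_eq_norm_sq,
        Complex.normSq_mk, pow_two, pow_two]
    rw [hR]
    exact ⟨le_rfl, fun _ => hΩ⟩

end Pool.Agent.MFK.NU
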