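import Pool.Agent.Work.MP_8826fd_mp.NU.Stmts

/-!
# MP_8826fd_mp, block NU, item Neg: if `y_k(r) < 0` then `z` is at most of order `√x`
-/

set_option autoImplicit false

namespace Pool.Agent.MFK.NU

open MeasureTheory Set Filter Topology Pool.Agent.MFK.NF

namespace INeg

/-- `e^u - 1 ≥ u²/2` -/
lemma exp_quad {u : ℝ} (hu : 0 ≤ u) : u ^ 2 / 2 ≤ Real.exp u - 1 := by
  have h := Real.quadratic_le_exp_of_nonneg hu
  linarith

lemma yk_der {B lam : ℝ} (hB : 0 < B) (hl : lam < B) (k : ℕ) {r : ℝ} (hr : 0 < r) :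
    HasDerivAt (yk B lam k)
      (((B * r ^ 2 / 2 - k) ^ 2 - lam * r ^ 2 - yk B lam k r ^ 2) / r) r :=
  gk_ric hB hl k hr

end INeg

theorem pr_Neg (h1 : StVlo) : StNeg := by
  intro B lam k r1 hB hl0 hl hr1 hy
  have hk : (0 : ℝ) ≤ k := Nat.cast_nonneg k
  have hA : 0 < 1 / 2 - lam / (2 * B) := by
    have : lam / (2 * B) < 1 / 2 := by
      rw [div_lt_iff₀ (by positivity)]
      linarith
    linarith
  have hA2 : 1 / 2 - lam / (2 * B) ≤ 1 / 2 := by
    have : 0 < lam / (2 * B) := by positivity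
    linarith
  have htau : ∀ r : ℝ, 0 < r → 0 < (B * r ^ 2 / 2 - k) + yk B lam k r := by
    intro r hr
    have h := h1 B lam k r hB hl0 hl hr
    have h2 : 0 < B * r ^ 2 * (1 / 2 - lam / (2 * B)) / (k + 1) := by positivity
    linarith
  have hz1 : 0 < B * r1 ^ 2 / 2 - k := by
    have := htau r1 hr1
    linarith
  refine ⟨hz1, ?_⟩
  by_contra hcon
  push Not at hcon
  have hBl : B * (2 * (1 / 2 - lam / (2 * B))) = B - lam := by
    field_simp
  set A : ℝ := 1 / 2 - lam / (2 * B) with hAdef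
  set z1 : ℝ := B * r1 ^ 2 / 2 - k with hz1def
  set x1 : ℝ := B * r1 ^ 2 / 2 with hx1def
  have hx1 : 0 < x1 := by positivity
  have hzx : z1 ≤ x1 := by linarith
  have hz32 : 32 * x1 < z1 ^ 2 := by
    have := mul_le_mul_of_nonneg_right hA2 (sq_nonneg z1)
    linarith
  -- the left end of the interval
  obtain ⟨r0, hr0, hr0sq⟩ : ∃ r0 : ℝ, 0 < r0 ∧ B * r0 ^ 2 / 2 = x1 - z1 / 2 := by
    have h2 : 0 < 2 * (x1 - z1 / 2) / B := by
      apply div_pos _ hB
      linarith
    refine ⟨Real.sqrt (2 * (x1 - z1 / 2) / B), Real.sqrt_pos.mpr h2, ?_⟩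
    rw [Real.sq_sqrt h2.le]
    field_simp
  have hr01 : r0 < r1 := by
    by_contra hc
    push Not at hc
    have h2 : r1 ^ 2 ≤ r0 ^ 2 := pow_le_pow_left₀ hr1.le hc 2
    have h3 : B * r1 ^ 2 / 2 ≤ B * r0 ^ 2 / 2 := by
      have := mul_le_mul_of_nonneg_left h2 hB.le
      linarith
    rw [hr0sq] at h3
    have h4 : x1 ≤ x1 - z1 / 2 := h3
    linarith
  have hx : ∀ r ∈ Icc r0 r1, 0 < r ∧ x1 - z1 / 2 ≤ B * r ^ 2 / 2 ∧ B * r ^ 2 / 2 ≤ x1 := by
    intro r hr
    have hrp : 0 < r := lt_of_lt_of_le hr0 hr.1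
    refine ⟨hrp, ?_, ?_⟩
    · rw [← hr0sq]
      have h2 : r0 ^ 2 ≤ r ^ 2 := pow_le_pow_left₀ hr0.le hr.1 2
      have := mul_le_mul_of_nonneg_left h2 hB.le
      linarith
    · have h2 : r ^ 2 ≤ r1 ^ 2 := pow_le_pow_left₀ hrp.le hr.2 2
      have := mul_le_mul_of_nonneg_left h2 hB.le
      rw [hx1def]
      linarith
  -- `y < 0` on the interval
  have hneg : ∀ r ∈ Icc r0 r1, yk B lam k r < 0 := by
    have hmono : MonotoneOn (fun t => t * deriv (gk B lam k) t) (Icc r0 r1) := by
      refine monotoneOn_of_deriv_nonneg (convex_Icc r0 r1) ?_ ?_ ?_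
      · intro r hr
        exact (gk_ode hB hl k (hx r hr).1).continuousAt.continuousWithinAt
      · intro r hr
        rw [interior_Icc] at hr
        exact (gk_ode hB hl k (hx r (Ioo_subset_Icc_self hr)).1).differentiableAt.differentiableWithinAt
      · intro r hr
        rw [interior_Icc] at hr
        obtain ⟨hrp, e1, e2⟩ := hx r (Ioo_subset_Icc_self hr)
        rw [(gk_ode hB hl k hrp).deriv]
        have hg := gk_pos hB hl k hrp
        have e3 : ((k : ℝ) / r - B * r / 2) ^ 2 - lam = ((B * r ^ 2 / 2 - k) ^ 2 - lam * r ^ 2) / r ^ 2 := by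
          field_simp
          ring
        have e4 : z1 / 2 ≤ B * r ^ 2 / 2 - k := by linarith
        have e5 : lam * r ^ 2 ≤ 2 * x1 := by
          have : lam * r ^ 2 ≤ B * r ^ 2 := mul_le_mul_of_nonneg_right hl.le (sq_nonneg r)
          linarith
        have e6 : (z1 / 2) ^ 2 ≤ (B * r ^ 2 / 2 - k) ^ 2 :=
          pow_le_pow_left₀ (by linarith) e4 2
        have e8 : (z1 / 2) ^ 2 = z1 ^ 2 / 4 := by ring
        have e7 : 0 ≤ (B * r ^ 2 / 2 - k) ^ 2 - lam * r ^ 2 := by linarith
        rw [e3]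
        positivity
    intro r hr
    have h2 := hmono hr (right_mem_Icc.mpr hr01.le) hr.2
    have hg := gk_pos hB hl k (hx r hr).1
    have hg1 := gk_pos hB hl k hr1
    have h3 : r1 * deriv (gk B lam k) r1 < 0 := by
      have : r1 * deriv (gk B lam k) r1 / gk B lam k r1 < 0 := hy
      rwa [div_lt_iff₀ hg1, zero_mul] at this
    have h4 : r * deriv (gk B lam k) r < 0 := lt_of_le_of_lt h2 h3
    show r * deriv (gk B lam k) r / gk B lam k r < 0
    exact div_neg_of_neg_of_pos h4 hg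
  -- comparison
  set a : ℝ := z1 / (4 * x1) with hadef
  have ha : 0 < a := by positivity
  set c : ℝ := 2 * A / a with hcdef
  have hc : 0 < c := by positivity
  have hac : a * c = 2 * A := by
    rw [hcdef]
    field_simp
  have hder : ∀ r : ℝ, 0 < r → HasDerivAt
      (fun t => ((B * t ^ 2 / 2 - k) + yk B lam k t + c) * Real.exp (-(a * (B * t ^ 2 / 2))))
      ((B * r + ((B * r ^ 2 / 2 - k) ^ 2 - lam * r ^ 2 - yk B lam k r ^ 2) / r)
        * Real.exp (-(a * (B * r ^ 2 / 2)))
        + ((B * r ^ 2 / 2 - k) + yk B lam k r + c)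
          * (Real.exp (-(a * (B * r ^ 2 / 2))) * (-(a * (B * r))))) r := by
    intro r hr
    have d1 : HasDerivAt (fun t : ℝ => B * t ^ 2 / 2) (B * r) r := by
      have := ((hasDerivAt_pow 2 r).const_mul B).div_const 2
      refine this.congr_deriv ?_
      push_cast
      ring
    have d2 : HasDerivAt (fun t : ℝ => (B * t ^ 2 / 2 - k) + yk B lam k t + c)
        (B * r + ((B * r ^ 2 / 2 - k) ^ 2 - lam * r ^ 2 - yk B lam k r ^ 2) / r) r :=
      ((d1.sub_const (k : ℝ)).add (INeg.yk_der hB hl k hr)).add_const c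
    have d3 : HasDerivAt (fun t : ℝ => Real.exp (-(a * (B * t ^ 2 / 2))))
        (Real.exp (-(a * (B * r ^ 2 / 2))) * (-(a * (B * r)))) r :=
      ((d1.const_mul a).neg).exp
    exact d2.mul d3
  have hmono2 : MonotoneOn
      (fun t => ((B * t ^ 2 / 2 - k) + yk B lam k t + c) * Real.exp (-(a * (B * t ^ 2 / 2)))) (Icc r0 r1) := by
    refine monotoneOn_of_deriv_nonneg (convex_Icc r0 r1) ?_ ?_ ?_
    · intro r hr
      exact (hder r (hx r hr).1).continuousAt.continuousWithinAt
    · intro r hr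
      rw [interior_Icc] at hr
      exact (hder r (hx r (Ioo_subset_Icc_self hr)).1).differentiableAt.differentiableWithinAt
    · intro r hr
      rw [interior_Icc] at hr
      have hrI := Ioo_subset_Icc_self hr
      obtain ⟨hrp, e1, e2⟩ := hx r hrI
      rw [(hder r hrp).deriv]
      have ht := htau r hrp
      have hn := hneg r hrI
      set z : ℝ := B * r ^ 2 / 2 - k with hzdef
      set y : ℝ := yk B lam k r with hydef
      set E : ℝ := Real.exp (-(a * (B * r ^ 2 / 2))) with hEdef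
      have hE : 0 < E := Real.exp_pos _
      have e4 : z1 / 2 ≤ z := by rw [hzdef]; linarith
      -- `r τ' = (B - lam) r² + z² - y²`
      have key : a * (B * r) * (z + y + c) ≤ B * r + (z ^ 2 - lam * r ^ 2 - y ^ 2) / r := by
        have k1 : B * r + (z ^ 2 - lam * r ^ 2 - y ^ 2) / r
            = (B * (2 * A) * r ^ 2 + (z + y) * (z - y)) / r := by
          rw [hBl]
          field_simp
          ring
        rw [k1, le_div_iff₀ hrp]
        have k2 : a * (B * r) * (z + y + c) * r = B * (a * c) * r ^ 2 + 2 * a * (B * r ^ 2 / 2) * (z + y) := by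
          ring
        rw [k2, hac]
        have k3 : 2 * a * (B * r ^ 2 / 2) ≤ z1 / 2 := by
          have : 2 * a * (B * r ^ 2 / 2) ≤ 2 * a * x1 := by
            apply mul_le_mul_of_nonneg_left e2
            positivity
          have h5 : 2 * a * x1 = z1 / 2 := by
            rw [hadef]
            field_simp
            ring
          linarith
        have k4 : 2 * a * (B * r ^ 2 / 2) * (z + y) ≤ (z + y) * (z - y) := by
          have h6 : 2 * a * (B * r ^ 2 / 2) ≤ z - y := by linarith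
          rw [mul_comm (z + y)]
          exact mul_le_mul_of_nonneg_right h6 ht.le
        linarith
      have : (B * r + (z ^ 2 - lam * r ^ 2 - y ^ 2) / r) * E + (z + y + c) * (E * (-(a * (B * r))))
          = E * ((B * r + (z ^ 2 - lam * r ^ 2 - y ^ 2) / r) - a * (B * r) * (z + y + c)) := by ring
      rw [this]
      exact mul_nonneg hE.le (by linarith)
  have hfin := hmono2 (left_mem_Icc.mpr hr01.le) (right_mem_Icc.mpr hr01.le) hr01.le
  simp only at hfin
  rw [hr0sq] at hfin
  have ht0 := htau r0 hr0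
  rw [hr0sq] at ht0
  -- `c e^(-a x0) ≤ (τ1 + c) e^(-a x1)`
  have f1 : c * Real.exp (-(a * (x1 - z1 / 2))) ≤ (z1 + yk B lam k r1 + c) * Real.exp (-(a * x1)) := by
    refine le_trans ?_ hfin
    apply mul_le_mul_of_nonneg_right _ (Real.exp_pos _).le
    linarith
  have f2 : Real.exp (-(a * (x1 - z1 / 2))) = Real.exp (a * z1 / 2) * Real.exp (-(a * x1)) := by
    rw [← Real.exp_add]
    congr 1
    ring
  rw [f2, ← mul_assoc] at f1
  have f3 : c * Real.exp (a * z1 / 2) ≤ z1 + yk B lam k r1 + c :=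
    le_of_mul_le_mul_right f1 (Real.exp_pos _)
  have hu : 0 ≤ a * z1 / 2 := by positivity
  have f4 := INeg.exp_quad hu
  have f5 : c * ((a * z1 / 2) ^ 2 / 2) ≤ z1 + yk B lam k r1 := by
    have := mul_le_mul_of_nonneg_left f4 hc.le
    linarith
  have f6 : c * ((a * z1 / 2) ^ 2 / 2) = A * z1 ^ 3 / (16 * x1) := by
    rw [hcdef, hadef]
    field_simp
    ring
  have f7 : z1 < A * z1 ^ 3 / (16 * x1) := by
    rw [lt_div_iff₀ (by positivity)]
    have h7 := mul_lt_mul_of_pos_left hcon hz1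
    have h8 : z1 * (A * z1 ^ 2) = A * z1 ^ 3 := by ring
    linarith
  rw [f6] at f5
  linarith

end Pool.Agent.MFK.NU
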