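import Pool.Agent.Work.MP_8826fd_mp.NU.Stmts

/-!
# MP_8826fd_mp, block NU, item Star

At a minimal mode `z > 0` and `z² - y² ≥ l t/(1+t)` for `0 ≤ t ≤ 2xA/(x+1)`.
-/

set_option autoImplicit false

namespace Pool.Agent.MFK.NU

open MeasureTheory Set Filter Topology Pool.Agent.MFK.NF

namespace IStar

/-- the case `k ≥ 1` (`K = k`, `a = 2xA`, `y'` the value of the mode `k - 1`) -/
theorem aux1 {x l a K y y' : ℝ} (hx : 0 < x) (hl : 0 < l) (ha : 0 < a) (hK : 1 ≤ K)
    (hprod : (y + K + x) * (K - 1 + x - y') = l + (2 * (K - 1) + 1) * (2 * x))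
    (hyy : y ≤ y') (hlt : 0 < K - 1 + x - y') (hv : -(x - K) + a / (K + 1) ≤ y) :
    K < x ∧ ∀ t : ℝ, 0 ≤ t → t ≤ a / (x + 1) → l * (t / (1 + t)) ≤ (x - K) ^ 2 - y ^ 2 := by
  have hR : 0 < l + (2 * (K - 1) + 1) * (2 * x) := by
    have : 0 ≤ (2 * (K - 1) + 1) * (2 * x) := by
      apply mul_nonneg <;> linarith
    linarith
  have hpos : 0 < y + K + x := by
    by_contra hcon
    push Not at hcon
    have : (y + K + x) * (K - 1 + x - y') ≤ 0 := mul_nonpos_of_nonpos_of_nonneg hcon hlt.le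
    linarith
  have h1 : (y + K + x) * (K - 1 + x - y') ≤ (y + K + x) * (K - 1 + x - y) :=
    mul_le_mul_of_nonneg_left (by linarith) hpos.le
  have h2 : l ≤ (x - K - y) * (x - K + y + 1) := by
    have e : (x - K - y) * (x - K + y + 1)
        = (y + K + x) * (K - 1 + x - y) - (2 * (K - 1) + 1) * (2 * x) := by ring
    rw [e]
    linarith
  have h3 : 0 < a / (K + 1) := div_pos ha (by linarith)
  have h4 : 0 < x - K + y := by linarith
  have h5 : 0 < x - K - y := by
    by_contra hcon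
    push Not at hcon
    have : (x - K - y) * (x - K + y + 1) ≤ 0 :=
      mul_nonpos_of_nonpos_of_nonneg hcon (by linarith)
    linarith
  have h6 : K < x := by linarith
  refine ⟨h6, fun t ht0 ht => ?_⟩
  have h7 : a / (x + 1) ≤ a / (K + 1) :=
    div_le_div_of_nonneg_left ha.le (by linarith) (by linarith)
  have h8 : t ≤ x - K + y := by linarith
  have h9 : 0 < 1 + t := by linarith
  rw [← mul_div_assoc, div_le_iff₀ h9]
  have e1 : ((x - K) ^ 2 - y ^ 2) * (1 + t)
      = (x - K - y) * (x - K + y + 1) * t + (x - K - y) * (x - K + y - t) := by ring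
  rw [e1]
  have h10 : l * t ≤ (x - K - y) * (x - K + y + 1) * t := mul_le_mul_of_nonneg_right h2 ht0
  have h11 : 0 ≤ (x - K - y) * (x - K + y - t) := mul_nonneg h5.le (by linarith)
  linarith

/-- the case `k = 0` (`y1` the value of the mode `1`) -/
theorem aux0 {x l a y y1 : ℝ} (hx : 0 < x) (hl : 0 < l) (hlx : l ≤ 2 * x)
    (hprod : (y1 + 1 + x) * (x - y) = l + 2 * x)
    (h1 : y1 < 1 + x) (hlt : 0 < x - y) (hv : -x + a ≤ y) :
    ∀ t : ℝ, 0 ≤ t → t ≤ a / (x + 1) → l * (t / (1 + t)) ≤ x ^ 2 - y ^ 2 := by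
  intro t ht0 ht
  have h2 : (y1 + 1 + x) * (x - y) ≤ (2 * (1 + x)) * (x - y) :=
    mul_le_mul_of_nonneg_right (by linarith) hlt.le
  have h3 : l ≤ (1 + x) * (x - y) := by nlinarith
  have h4 : t * (x + 1) ≤ a := (le_div_iff₀ (by linarith)).1 ht
  have h5 : (x - y) * (t * (x + 1)) ≤ (x - y) * (x + y) :=
    mul_le_mul_of_nonneg_left (by linarith) hlt.le
  have h6 : l * t ≤ (1 + x) * (x - y) * t := mul_le_mul_of_nonneg_right h3 ht0
  have h7 : l * t ≤ x ^ 2 - y ^ 2 := by
    have e1 : (x - y) * (x + y) = x ^ 2 - y ^ 2 := by ring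
    have e2 : (x - y) * (t * (x + 1)) = (1 + x) * (x - y) * t := by ring
    rw [e1, e2] at h5
    linarith
  have h8 : t / (1 + t) ≤ t := div_le_self ht0 (by linarith)
  have h9 : l * (t / (1 + t)) ≤ l * t := mul_le_mul_of_nonneg_left h8 hl.le
  linarith

end IStar

/-- item Star -/
theorem pr_Star (h1 : StVlo) : StStar := by
  intro B lam k r hB hl0 hl hr hmin
  have hr2 : 0 < r ^ 2 := by positivity
  have hx : 0 < B * r ^ 2 / 2 := by positivity
  have hll : 0 < lam * r ^ 2 := by positivity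
  have hA : 0 < 1 / 2 - lam / (2 * B) := by
    have e : 1 / 2 - lam / (2 * B) = (B - lam) / (2 * B) := by
      field_simp
    rw [e]
    apply div_pos <;> linarith
  have ha : 0 < B * r ^ 2 * (1 / 2 - lam / (2 * B)) := by positivity
  have hlx : lam * r ^ 2 ≤ 2 * (B * r ^ 2 / 2) := by nlinarith
  have hv := h1 B lam k r hB hl0 hl hr
  rcases Nat.eq_zero_or_pos k with h0 | h0
  · subst h0
    have hp := gk_prod hB hl0 hl 0 hr
    have hlt0 := gk_lt hB hl0 hl 0 hr
    have hlt1 := gk_lt hB hl0 hl 1 hr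
    have hp' : (yk B lam 1 r + 1 + B * r ^ 2 / 2) * (B * r ^ 2 / 2 - yk B lam 0 r)
        = lam * r ^ 2 + 2 * (B * r ^ 2 / 2) := by
      unfold yk
      push_cast at hp
      simp only [zero_add, add_zero, mul_zero, one_mul] at hp
      rw [hp]
      ring
    have a1 : yk B lam 1 r < 1 + B * r ^ 2 / 2 := by
      unfold yk
      push_cast at hlt1
      exact hlt1
    have a0 : 0 < B * r ^ 2 / 2 - yk B lam 0 r := by
      unfold yk
      push_cast at hlt0
      linarith
    have hv' : -(B * r ^ 2 / 2) + B * r ^ 2 * (1 / 2 - lam / (2 * B)) ≤ yk B lam 0 r := by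
      push_cast at hv
      simpa using hv
    have hfin := IStar.aux0 hx hll hlx hp' a1 a0 hv'
    refine ⟨by push_cast; exact hx, fun t ht0 ht => ?_⟩
    have := hfin t ht0 ht
    push_cast
    rw [sub_zero]
    exact this
  · obtain ⟨j, rfl⟩ : ∃ j, k = j + 1 := ⟨k - 1, by omega⟩
    have hp := gk_prod hB hl0 hl j hr
    have hltj := gk_lt hB hl0 hl j hr
    have hm := hmin j
    push_cast at hv ⊢
    have hp' : (yk B lam (j + 1) r + ((j : ℝ) + 1) + B * r ^ 2 / 2)
        * (((j : ℝ) + 1) - 1 + B * r ^ 2 / 2 - yk B lam j r)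
        = lam * r ^ 2 + (2 * (((j : ℝ) + 1) - 1) + 1) * (2 * (B * r ^ 2 / 2)) := by
      unfold yk
      have e1 : (r * deriv (gk B lam (j + 1)) r / gk B lam (j + 1) r + ((j : ℝ) + 1) + B * r ^ 2 / 2)
          = (r * deriv (gk B lam (j + 1)) r / gk B lam (j + 1) r + j + 1 + B * r ^ 2 / 2) := by ring
      have e2 : (((j : ℝ) + 1) - 1 + B * r ^ 2 / 2 - r * deriv (gk B lam j) r / gk B lam j r)
          = (j + B * r ^ 2 / 2 - r * deriv (gk B lam j) r / gk B lam j r) := by ring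
      rw [e1, e2, hp]
      ring
    have a0 : 0 < ((j : ℝ) + 1) - 1 + B * r ^ 2 / 2 - yk B lam j r := by
      unfold yk
      linarith
    have hj : (0 : ℝ) ≤ j := Nat.cast_nonneg j
    exact IStar.aux1 hx hll ha (by linarith) hp' hm a0 hv

end Pool.Agent.MFK.NU
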