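import Pool.Agent.Work.MP_8826fd_mp.NU.Stmts

/-!
# MP_8826fd_mp, block NU: item Sup
-/

set_option autoImplicit false

namespace Pool.Agent.MFK.NU

open MeasureTheory Set Filter Topology Pool.Agent.MFK.NF

namespace ISup

/-- monotonicity where `y ≥ 0` -/
theorem g_mono {B lam : ℝ} (hB : 0 < B) (hl : lam < B) (k : ℕ) {a b : ℝ} (ha : 0 < a) (hab : a ≤ b)
    (hy : ∀ r ∈ Ioo a b, 0 ≤ yk B lam k r) : gk B lam k a ≤ gk B lam k b := by
  have hm : MonotoneOn (gk B lam k) (Icc a b) := by
    apply monotoneOn_of_deriv_nonneg (convex_Icc a b) (gk_cont hB hl k).continuousOn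
    · intro x _
      exact (gk_d1 hB hl k x).differentiableAt.differentiableWithinAt
    · intro x hx
      rw [interior_Icc] at hx
      have hx0 : 0 < x := lt_trans ha hx.1
      have h1 := hy x hx
      unfold yk at h1
      have hp := gk_pos hB hl k hx0
      have h2 : x * deriv (gk B lam k) x / gk B lam k x * gk B lam k x = x * deriv (gk B lam k) x :=
        div_mul_cancel₀ _ hp.ne'
      have h3 : 0 ≤ x * deriv (gk B lam k) x := by
        rw [← h2]
        exact mul_nonneg h1 hp.le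
      exact nonneg_of_mul_nonneg_right h3 hx0
  exact hm ⟨le_rfl, hab⟩ ⟨hab, le_rfl⟩ hab

/-- monotonicity of `g exp(z²/(2x))` where `z ≥ 0` -/
theorem h_mono {B lam : ℝ} (hB : 0 < B) (hl : lam < B) (k : ℕ) {a b : ℝ} (ha : 0 < a) (hab : a ≤ b)
    (hz : (k : ℝ) ≤ B * a ^ 2 / 2)
    (hy : ∀ r ∈ Ioo a b, -(B * r ^ 2 / 2 - k) ≤ yk B lam k r) :
    gk B lam k a ≤ gk B lam k b * Real.exp ((B * b ^ 2 / 2 - k) ^ 2 / (B * b ^ 2)) := by
  have hd : ∀ x : ℝ, 0 < x → HasDerivAt
      (fun r => gk B lam k r * Real.exp ((B * r ^ 2 / 2 - k) ^ 2 / (B * r ^ 2)))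
      (deriv (gk B lam k) x * Real.exp ((B * x ^ 2 / 2 - k) ^ 2 / (B * x ^ 2))
        + gk B lam k x * (Real.exp ((B * x ^ 2 / 2 - k) ^ 2 / (B * x ^ 2))
          * ((2 * (B * x ^ 2 / 2 - k) * (B * x) * (B * x ^ 2)
            - (B * x ^ 2 / 2 - k) ^ 2 * (2 * B * x)) / (B * x ^ 2) ^ 2))) x := by
    intro x hx
    have h1 : HasDerivAt (fun r : ℝ => B * r ^ 2 / 2 - k) (B * x) x := by
      have h := (((hasDerivAt_id' x).fun_pow 2).const_mul B).div_const 2
      have h' := h.sub_const (k : ℝ)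
      exact h'.congr_deriv (by push_cast; ring)
    have h2 : HasDerivAt (fun r : ℝ => B * r ^ 2) (2 * B * x) x := by
      have h := ((hasDerivAt_id' x).fun_pow 2).const_mul B
      exact h.congr_deriv (by push_cast; ring)
    have h3 : HasDerivAt (fun r : ℝ => (B * r ^ 2 / 2 - k) ^ 2) (2 * (B * x ^ 2 / 2 - k) * (B * x)) x := by
      have h := h1.fun_pow 2
      exact h.congr_deriv (by push_cast; ring)
    have h4 := h3.fun_div h2 (by positivity)
    exact (gk_d1 hB hl k x).fun_mul h4.exp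
  have hm : MonotoneOn (fun r => gk B lam k r * Real.exp ((B * r ^ 2 / 2 - k) ^ 2 / (B * r ^ 2)))
      (Icc a b) := by
    apply monotoneOn_of_deriv_nonneg (convex_Icc a b)
    · intro x hx
      exact (hd x (lt_of_lt_of_le ha hx.1)).continuousAt.continuousWithinAt
    · intro x hx
      rw [interior_Icc] at hx
      exact (hd x (lt_trans ha hx.1)).differentiableAt.differentiableWithinAt
    · intro x hx
      rw [interior_Icc] at hx
      have hx0 : 0 < x := lt_trans ha hx.1
      rw [(hd x hx0).deriv]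
      have hp := gk_pos hB hl k hx0
      have h1 := hy x hx
      unfold yk at h1
      set Y := x * deriv (gk B lam k) x / gk B lam k x with hY
      have hder : deriv (gk B lam k) x = Y * gk B lam k x / x := by
        rw [hY]
        field_simp
      have hzx : (k : ℝ) ≤ B * x ^ 2 / 2 := by
        have : a ^ 2 ≤ x ^ 2 := by nlinarith [hx.1.le]
        nlinarith
      have hk : (0 : ℝ) ≤ k := Nat.cast_nonneg k
      have he := Real.exp_pos ((B * x ^ 2 / 2 - k) ^ 2 / (B * x ^ 2))
      set E := Real.exp ((B * x ^ 2 / 2 - k) ^ 2 / (B * x ^ 2)) with hE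
      set z := B * x ^ 2 / 2 - k with hzd
      have hz0 : 0 ≤ z := by linarith
      have e1 : (2 * z * (B * x) * (B * x ^ 2) - z ^ 2 * (2 * B * x)) / (B * x ^ 2) ^ 2
          = 2 * z * (1 - z / (B * x ^ 2)) / x := by
        field_simp
      have hzle : z ≤ B * x ^ 2 / 2 := by linarith
      have e2 : z / (B * x ^ 2) ≤ 1 / 2 := by
        rw [div_le_iff₀ (by positivity)]
        linarith
      rw [hder, e1]
      have e3 : Y * gk B lam k x / x * E + gk B lam k x * (E * (2 * z * (1 - z / (B * x ^ 2)) / x))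
          = gk B lam k x * E / x * (Y + 2 * z * (1 - z / (B * x ^ 2))) := by
        ring
      rw [e3]
      have e4 : 0 ≤ Y + 2 * z * (1 - z / (B * x ^ 2)) := by
        have : z ≤ 2 * z * (1 - z / (B * x ^ 2)) := by nlinarith
        linarith
      positivity
  have h1 := hm ⟨le_rfl, hab⟩ ⟨hab, le_rfl⟩ hab
  simp only at h1
  have h2 : gk B lam k a * 1 ≤ gk B lam k a * Real.exp ((B * a ^ 2 / 2 - k) ^ 2 / (B * a ^ 2)) := by
    apply mul_le_mul_of_nonneg_left _ (gk_pos hB hl k ha).le
    apply Real.one_le_exp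
    positivity
  linarith

/-- the bound at a point where `y < 0` -/
theorem at_neg (h1 : StVlo) (h2 : StNeg) {B lam A0 : ℝ} (k : ℕ) {t r : ℝ} (hB : 0 < B) (hl0 : 0 < lam)
    (hl : lam < B) (hA0 : 0 < A0) (hA : A0 ≤ 1 / 2 - lam / (2 * B)) (ht : 0 < t) (htr : t ≤ r)
    (hy : yk B lam k r < 0) : gk B lam k t ≤ Real.exp (8 / A0) * gk B lam k r := by
  have hr : 0 < r := lt_of_lt_of_le ht htr
  obtain ⟨hz, hw⟩ := h2 B lam k r hB hl0 hl hr hy
  have hk : (0 : ℝ) ≤ k := Nat.cast_nonneg k
  have hlow : ∀ x : ℝ, 0 < x → -(B * x ^ 2 / 2 - k) ≤ yk B lam k x := by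
    intro x hx
    have h := h1 B lam k x hB hl0 hl hx
    have hpos : 0 ≤ B * x ^ 2 * (1 / 2 - lam / (2 * B)) / (k + 1) := by
      have : 0 ≤ 1 / 2 - lam / (2 * B) := by linarith
      positivity
    linarith
  have hexp : Real.exp ((B * r ^ 2 / 2 - k) ^ 2 / (B * r ^ 2)) ≤ Real.exp (8 / A0) := by
    apply Real.exp_le_exp.mpr
    rw [div_le_div_iff₀ (by positivity) hA0]
    have hsq : 0 ≤ (B * r ^ 2 / 2 - k) ^ 2 := sq_nonneg _
    nlinarith [mul_le_mul_of_nonneg_right hA hsq]
  have hgr := gk_pos hB hl k hr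
  rcases le_or_gt (k : ℝ) (B * t ^ 2 / 2) with hc | hc
  · have h3 := h_mono hB hl k ht htr hc (fun x hx => hlow x (lt_trans ht hx.1))
    calc gk B lam k t ≤ _ := h3
      _ ≤ gk B lam k r * Real.exp (8 / A0) := mul_le_mul_of_nonneg_left hexp hgr.le
      _ = _ := mul_comm _ _
  · -- the point where `z = 0`
    have hkp : (0 : ℝ) < k := lt_trans (by positivity) hc
    set s := Real.sqrt (2 * k / B) with hs
    have hs2 : s ^ 2 = 2 * k / B := Real.sq_sqrt (by positivity)
    have hs0 : 0 < s := Real.sqrt_pos.mpr (by positivity)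
    have hBs : B * s ^ 2 / 2 = k := by
      rw [hs2]
      field_simp
    have hts : t ≤ s := by
      by_contra hcon
      push Not at hcon
      have : s ^ 2 < t ^ 2 := by nlinarith
      nlinarith
    have hsr : s ≤ r := by
      by_contra hcon
      push Not at hcon
      have : r ^ 2 < s ^ 2 := by nlinarith
      nlinarith
    have h3 : gk B lam k t ≤ gk B lam k s := by
      apply g_mono hB hl k ht hts
      intro x hx
      have hx0 : 0 < x := lt_trans ht hx.1
      have h := hlow x hx0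
      have : x ^ 2 < s ^ 2 := by nlinarith [hx.2]
      nlinarith
    have h4 := h_mono hB hl k hs0 hsr hBs.ge (fun x hx => hlow x (lt_trans hs0 hx.1))
    calc gk B lam k t ≤ gk B lam k s := h3
      _ ≤ _ := h4
      _ ≤ gk B lam k r * Real.exp (8 / A0) := mul_le_mul_of_nonneg_left hexp hgr.le
      _ = _ := mul_comm _ _

end ISup

theorem pr_Sup (h1 : StVlo) (h2 : StNeg) : StSup := by
  intro B lam A0 k t r hB hl0 hl hA0 hA ht htr
  have hK : 1 ≤ Real.exp (8 / A0) := Real.one_le_exp (by positivity)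
  have hgt := gk_pos hB hl k ht
  by_cases hS : ({x : ℝ | t ≤ x ∧ x ≤ r ∧ yk B lam k x < 0}).Nonempty
  · set S := {x : ℝ | t ≤ x ∧ x ≤ r ∧ yk B lam k x < 0} with hSd
    have hbdd : BddAbove S := ⟨r, fun x hx => hx.2.1⟩
    have hcl : sSup S ∈ closure S := csSup_mem_closure hS hbdd
    have hclosed : IsClosed {x : ℝ | gk B lam k t ≤ Real.exp (8 / A0) * gk B lam k x} :=
      isClosed_le continuous_const (continuous_const.mul (gk_cont hB hl k))
    have hsub : S ⊆ {x : ℝ | gk B lam k t ≤ Real.exp (8 / A0) * gk B lam k x} := by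
      intro x hx
      exact ISup.at_neg h1 h2 k hB hl0 hl hA0 hA ht hx.1 hx.2.2
    have h3 : gk B lam k t ≤ Real.exp (8 / A0) * gk B lam k (sSup S) :=
      closure_minimal hsub hclosed hcl
    have hle : sSup S ≤ r := csSup_le hS fun x hx => hx.2.1
    have hge : t ≤ sSup S := by
      obtain ⟨x, hx⟩ := hS
      exact hx.1.trans (le_csSup hbdd hx)
    have h4 : gk B lam k (sSup S) ≤ gk B lam k r := by
      apply ISup.g_mono hB hl k (lt_of_lt_of_le ht hge) hle
      intro x hx
      by_contra hcon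
      push Not at hcon
      have : x ≤ sSup S := le_csSup hbdd ⟨hge.trans hx.1.le, hx.2.le, hcon⟩
      exact absurd hx.1 (not_lt.mpr this)
    calc gk B lam k t ≤ _ := h3
      _ ≤ _ := mul_le_mul_of_nonneg_left h4 (by positivity)
  · have h3 : gk B lam k t ≤ gk B lam k r := by
      apply ISup.g_mono hB hl k ht htr
      intro x hx
      by_contra hcon
      push Not at hcon
      exact hS ⟨x, hx.1.le, hx.2.le, hcon⟩
    have hgr := gk_pos hB hl k (lt_of_lt_of_le ht htr)
    nlinarith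

end Pool.Agent.MFK.NU
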