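import Pool.Agent.Work.MP_8826fd_mp.NU.Stmts

/-!
# MP_8826fd_mp, block NU, item Up: the energy of the disc is not close to `B` (helper51)
-/

set_option autoImplicit false

namespace Pool.Agent.MFK.NU

open MeasureTheory Set Filter Topology Pool.Agent.MFK.NF

namespace IUp

/-- `g(r) = r^n e^{-B r²/4}` -/
noncomputable def g (B : ℝ) (n : ℕ) (r : ℝ) : ℝ := r ^ n * Real.exp (-(B * r ^ 2 / 4))

/-- `G(r) = (n - B r²/2) g(r)²` -/
noncomputable def G (B : ℝ) (n : ℕ) (r : ℝ) : ℝ := (n - B * r ^ 2 / 2) * g B n r ^ 2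

theorem g_cont (B : ℝ) (n : ℕ) : Continuous (g B n) := by
  unfold g; fun_prop

theorem G_c1 (B : ℝ) (n : ℕ) : ContDiff ℝ 1 (G B n) := by
  unfold G g; fun_prop

theorem g_deriv (B : ℝ) (n : ℕ) {r : ℝ} (hr : 0 < r) :
    HasDerivAt (g B n) ((n / r - B * r / 2) * g B n r) r := by
  have h1 : HasDerivAt (fun t : ℝ => t ^ n) (n / r * r ^ n) r := by
    refine (hasDerivAt_pow n r).congr_deriv ?_
    rcases n with _ | k
    · simp
    · rw [Nat.add_sub_cancel]
      field_simp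
      ring
  have h2 : HasDerivAt (fun t : ℝ => -(B * t ^ 2 / 4)) (-(B * r / 2)) r := by
    have h3 := (((hasDerivAt_pow 2 r).const_mul B).div_const 4).fun_neg
    refine h3.congr_deriv ?_
    push_cast
    ring
  have h4 := h1.fun_mul h2.exp
  refine h4.congr_deriv ?_
  unfold g
  ring

theorem G_deriv (B : ℝ) (n : ℕ) {r : ℝ} (hr : 0 < r) :
    HasDerivAt (G B n) (2 * (n / r - B * r / 2) ^ 2 * g B n r ^ 2 * r - B * (g B n r ^ 2 * r)) r := by
  have h1 : HasDerivAt (fun t : ℝ => (n : ℝ) - B * t ^ 2 / 2) (-(B * r)) r := by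
    have h3 := (((hasDerivAt_pow 2 r).const_mul B).div_const 2).const_sub (n : ℝ)
    refine h3.congr_deriv ?_
    push_cast
    ring
  have h4 := h1.fun_mul ((g_deriv B n hr).fun_pow 2)
  refine h4.congr_deriv ?_
  push_cast
  field_simp
  ring

theorem key {B lam : ℝ} (hB : 0 < B) (hl0 : 0 < lam) (hl : lam < B) (n : ℕ)
    (hnn : 0 ≤ deriv (radf (n : ℤ) (FK B lam (n : ℤ))) 1) :
    (B / 2 - n) * Real.exp (-(B / 2)) ≤ (B - lam) * ∫ r in (0 : ℝ)..1, g B n r ^ 2 * r := by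
  have hG := G_c1 B n
  have hGd : Continuous (deriv (G B n)) := hG.continuous_deriv le_rfl
  have hgc := g_cont B n
  have hnorm : ∀ r : ℝ, ‖((g B n r : ℝ) : ℂ)‖ ^ 2 = g B n r ^ 2 := fun r => by
    rw [Complex.norm_real, Real.norm_eq_abs, sq_abs]
  have hnorm2 : ∀ r : ℝ, ‖(((n / r - B * r / 2) * g B n r : ℝ) : ℂ)‖ ^ 2
      = (n / r - B * r / 2) ^ 2 * g B n r ^ 2 := fun r => by
    rw [Complex.norm_real, Real.norm_eq_abs, sq_abs, mul_pow]
  have hcongr : ∀ r ∈ Ioc (0 : ℝ) 1,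
      (‖(((n / r - B * r / 2) * g B n r : ℝ) : ℂ)‖ ^ 2 + qn B (n : ℤ) r ^ 2 * ‖((g B n r : ℝ) : ℂ)‖ ^ 2) * r
      = deriv (G B n) r + B * (g B n r ^ 2 * r) := by
    intro r hr
    rw [hnorm, hnorm2, (G_deriv B n hr.1).deriv]
    unfold qn
    push_cast
    ring
  have hcont : Continuous (fun r => deriv (G B n) r + B * (g B n r ^ 2 * r)) := by fun_prop
  have hcont2 : Continuous (fun r : ℝ => g B n r ^ 2 * r) := by fun_prop
  have hmain := lRad rReg (lPicone rReg) B lam (n : ℤ) (FK B lam (n : ℤ))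
    (fun r => ((g B n r : ℝ) : ℂ)) (fun r => (((n / r - B * r / 2) * g B n r : ℝ) : ℂ)) hl0
    (gk_rad hB hl n) hnn
    (fun r hr => (g_deriv B n hr.1).ofReal_comp)
    (by
      refine Complex.continuous_ofReal.comp_continuousOn ?_
      refine ContinuousOn.mul (ContinuousOn.sub (continuousOn_const.div continuousOn_id
        fun r hr => hr.1.ne') (by fun_prop)) hgc.continuousOn)
    (by
      intro hn
      have hn' : n ≠ 0 := by exact_mod_cast hn
      have h0 : ((g B n 0 : ℝ) : ℂ) = 0 := by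
        unfold g
        simp [hn']
      have h1 : Tendsto (fun r => ((g B n r : ℝ) : ℂ)) (𝓝 0) (𝓝 ((g B n 0 : ℝ) : ℂ)) :=
        (Complex.continuous_ofReal.comp hgc).tendsto 0
      rw [h0] at h1
      exact h1.mono_left nhdsWithin_le_nhds)
    (by
      refine ⟨‖((g B n 0 : ℝ) : ℂ)‖ + 1, ?_⟩
      have h1 : Tendsto (fun r => ‖((g B n r : ℝ) : ℂ)‖) (𝓝 0) (𝓝 ‖((g B n 0 : ℝ) : ℂ)‖) :=
        (Complex.continuous_ofReal.comp hgc).norm.tendsto 0
      have h2 := (h1.mono_left (nhdsWithin_le_nhds (s := Ioi (0 : ℝ)))).eventually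
        (gt_mem_nhds (show ‖((g B n 0 : ℝ) : ℂ)‖ < ‖((g B n 0 : ℝ) : ℂ)‖ + 1 by linarith))
      filter_upwards [h2] with r hr
      exact hr.le)
    (by
      refine IntegrableOn.congr_fun ?_ (fun r hr => (hcongr r hr).symm) measurableSet_Ioc
      exact hcont.integrableOn_Ioc)
    (by
      refine IntegrableOn.congr_fun ?_ (fun r _ => by rw [hnorm]) measurableSet_Ioc
      exact hcont2.integrableOn_Ioc)
  have e1 : ∫ r in (0 : ℝ)..1, ‖((g B n r : ℝ) : ℂ)‖ ^ 2 * r = ∫ r in (0 : ℝ)..1, g B n r ^ 2 * r := by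
    refine intervalIntegral.integral_congr fun r _ => ?_
    simp only [hnorm]
  have e2 : ∫ r in (0 : ℝ)..1, (‖(((n / r - B * r / 2) * g B n r : ℝ) : ℂ)‖ ^ 2
      + qn B (n : ℤ) r ^ 2 * ‖((g B n r : ℝ) : ℂ)‖ ^ 2) * r
      = ∫ r in (0 : ℝ)..1, (deriv (G B n) r + B * (g B n r ^ 2 * r)) := by
    rw [intervalIntegral.integral_of_le zero_le_one, intervalIntegral.integral_of_le zero_le_one]
    exact setIntegral_congr_fun measurableSet_Ioc hcongr
  have e3 : ∫ r in (0 : ℝ)..1, (deriv (G B n) r + B * (g B n r ^ 2 * r))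
      = (G B n 1 - G B n 0) + B * ∫ r in (0 : ℝ)..1, g B n r ^ 2 * r := by
    rw [intervalIntegral.integral_add (hGd.intervalIntegrable _ _)
      ((hcont2.const_mul B).intervalIntegrable _ _ : _), intervalIntegral.integral_const_mul]
    congr 1
    exact intervalIntegral.integral_deriv_eq_sub (fun r _ => (hG.differentiable (by norm_num)) r)
      (hGd.intervalIntegrable _ _)
  have e4 : G B n 0 = 0 := by
    unfold G g
    rcases n with _ | k
    · simp
    · simp
  have e5 : G B n 1 = (n - B / 2) * Real.exp (-(B / 2)) := by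
    unfold G g
    rw [one_pow, one_pow, mul_one, one_mul, ← Real.exp_nat_mul]
    congr 2
    push_cast
    ring
  rw [e1, e2, e3, e4, e5] at hmain
  linarith

theorem last {B lam : ℝ} (hB : 0 < B) (hl0 : 0 < lam) (hl : lam < B)
    (hnn : 0 ≤ deriv (radf (0 : ℤ) (FK B lam (0 : ℤ))) 1) : lam ≤ B ^ 2 / 8 := by
  have hmain := lRad rReg (lPicone rReg) B lam (0 : ℤ) (FK B lam (0 : ℤ))
    (fun _ => 1) (fun _ => 0) hl0 (gk_rad hB hl 0) hnn
    (fun r _ => hasDerivAt_const r 1) continuousOn_const (fun h => absurd rfl h)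
    ⟨1, Eventually.of_forall fun r => by simp⟩
    (by
      refine Continuous.integrableOn_Ioc ?_
      unfold qn
      simp only [Int.cast_zero, zero_div]
      fun_prop)
    (by
      refine Continuous.integrableOn_Ioc ?_
      fun_prop)
  have e1 : ∫ r in (0 : ℝ)..1, ‖(1 : ℂ)‖ ^ 2 * r = 1 / 2 := by
    simp
  have e2 : ∫ r in (0 : ℝ)..1, (‖(0 : ℂ)‖ ^ 2 + qn B (0 : ℤ) r ^ 2 * ‖(1 : ℂ)‖ ^ 2) * r
      = B ^ 2 / 16 := by
    have : ∀ r : ℝ, (‖(0 : ℂ)‖ ^ 2 + qn B (0 : ℤ) r ^ 2 * ‖(1 : ℂ)‖ ^ 2) * r = B ^ 2 / 4 * r ^ 3 := by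
      intro r
      unfold qn
      simp
      ring
    simp only [this]
    rw [intervalIntegral.integral_const_mul, integral_pow]
    norm_num
    ring
  rw [e1, e2] at hmain
  linarith

theorem log_bd {t : ℝ} (h0 : 0 ≤ t) (h1 : t < 1) : Real.log (1 - t) ≤ -t - t ^ 2 / 2 := by
  have h := Real.hasSum_pow_div_log_of_abs_lt_one (x := t) (by rw [abs_of_nonneg h0]; exact h1)
  have h2 := sum_le_hasSum (Finset.range 2) (fun i _ => by positivity) h
  rw [Finset.sum_range_succ, Finset.sum_range_one] at h2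
  norm_num at h2
  linarith

theorem g_bd {B : ℝ} {n : ℕ} (hn : 0 < n) {r : ℝ} (hr0 : 0 ≤ r) (hr1 : r ≤ 1) :
    g B n r ^ 2 * r ≤ Real.exp (-(B / 2) + (B / 2 - n) ^ 2 / n) * Real.exp (-(n / 4 : ℝ) * (r - 1) ^ 2) := by
  rcases hr0.eq_or_lt with h | h
  · rw [← h, mul_zero]
    positivity
  · have hn' : (0 : ℝ) < n := by exact_mod_cast hn
    set t : ℝ := 1 - r ^ 2 with ht
    have ht0 : 0 ≤ t := by nlinarith
    have ht1 : t < 1 := by nlinarith [pow_pos h 2]
    have h1 : (r ^ 2) ^ n ≤ Real.exp (n * (-t - t ^ 2 / 2)) := by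
      have h2 : r ^ 2 = 1 - t := by rw [ht]; ring
      rw [h2]
      have h3 : (1 - t) = Real.exp (Real.log (1 - t)) := (Real.exp_log (by linarith)).symm
      rw [h3, ← Real.exp_nat_mul]
      exact Real.exp_le_exp.2 (mul_le_mul_of_nonneg_left (log_bd ht0 ht1) hn'.le)
    have h2 : g B n r ^ 2 = (r ^ 2) ^ n * Real.exp (-(B / 2) + B / 2 * t) := by
      unfold g
      rw [mul_pow, ← Real.exp_nat_mul, ← pow_mul, ← pow_mul, mul_comm n 2]
      congr 2
      rw [ht]
      push_cast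
      ring
    have h3 : g B n r ^ 2 * r ≤ (r ^ 2) ^ n * Real.exp (-(B / 2) + B / 2 * t) := by
      rw [← h2]
      exact mul_le_of_le_one_right (sq_nonneg _) hr1
    refine h3.trans ?_
    refine (mul_le_mul_of_nonneg_right h1 (Real.exp_pos _).le).trans ?_
    rw [← Real.exp_add, ← Real.exp_add]
    refine Real.exp_le_exp.2 ?_
    have h4 : (1 - r) ^ 2 ≤ t ^ 2 := by
      refine pow_le_pow_left₀ (by linarith) ?_ 2
      rw [ht]; nlinarith
    have h5 : 0 ≤ (n * t / 2 - (B / 2 - n)) ^ 2 / n := by positivity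
    have h6 : (n * t / 2 - (B / 2 - n)) ^ 2 / n = n * t ^ 2 / 4 - (B / 2 - n) * t + (B / 2 - n) ^ 2 / n := by
      field_simp
      ring
    rw [h6] at h5
    have h7 : (n : ℝ) / 4 * (r - 1) ^ 2 ≤ n / 4 * t ^ 2 := by
      refine mul_le_mul_of_nonneg_left ?_ (by positivity)
      calc (r - 1) ^ 2 = (1 - r) ^ 2 := by ring
        _ ≤ t ^ 2 := h4
    nlinarith

theorem J_bd {B : ℝ} {n : ℕ} (hn : 0 < n) :
    ∫ r in (0 : ℝ)..1, g B n r ^ 2 * r
      ≤ Real.exp (-(B / 2) + (B / 2 - n) ^ 2 / n) * Real.sqrt (Real.pi / (n / 4)) := by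
  have hn' : (0 : ℝ) < n := by exact_mod_cast hn
  have hgc := g_cont B n
  have hint : Integrable (fun r : ℝ => Real.exp (-(n / 4 : ℝ) * (r - 1) ^ 2)) := by
    have h := integrable_exp_neg_mul_sq (b := (n / 4 : ℝ)) (by positivity)
    exact h.comp_sub_right 1
  have hval : ∫ r : ℝ, Real.exp (-(n / 4 : ℝ) * (r - 1) ^ 2) = Real.sqrt (Real.pi / (n / 4)) := by
    rw [integral_sub_right_eq_self (fun r : ℝ => Real.exp (-(n / 4 : ℝ) * r ^ 2)) (1 : ℝ)]
    exact integral_gaussian _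
  rw [intervalIntegral.integral_of_le zero_le_one, ← hval, ← integral_const_mul]
  refine (setIntegral_mono_on (g := fun r => Real.exp (-(B / 2) + (B / 2 - n) ^ 2 / n)
    * Real.exp (-(n / 4 : ℝ) * (r - 1) ^ 2)) ?_ ?_ measurableSet_Ioc
    (fun r hr => g_bd hn hr.1.le hr.2)).trans ?_
  · exact Continuous.integrableOn_Ioc (by fun_prop)
  · exact (hint.const_mul _).integrableOn
  · exact setIntegral_le_integral (hint.const_mul _) (Eventually.of_forall fun r => by positivity)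

theorem J_bd0 {B : ℝ} (hB : 0 < B) : ∫ r in (0 : ℝ)..1, g B 0 r ^ 2 * r ≤ 1 / 2 := by
  have hgc := g_cont B 0
  have h1 : ∫ r in (0 : ℝ)..1, g B 0 r ^ 2 * r ≤ ∫ r in (0 : ℝ)..1, r := by
    refine intervalIntegral.integral_mono_on zero_le_one ?_ ?_ fun r hr => ?_
    · exact (by fun_prop : Continuous fun r : ℝ => g B 0 r ^ 2 * r).intervalIntegrable _ _
    · exact continuous_id.intervalIntegrable _ _
    · have h2 : g B 0 r ≤ 1 := by
        unfold g
        rw [pow_zero, one_mul]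
        exact Real.exp_le_one_iff.2 (by have := hr.1; nlinarith [sq_nonneg r])
      have h3 : 0 ≤ g B 0 r := by unfold g; positivity
      have h4 : g B 0 r ^ 2 ≤ 1 := pow_le_one₀ h3 h2
      nlinarith [hr.1]
  refine h1.trans ?_
  rw [integral_id]
  norm_num

end IUp

theorem pr_Up : StUp := by
  refine ⟨Real.exp (-8) / 2, by positivity, ?_, fun B lam m hG => ?_⟩
  · have : Real.exp (-8) ≤ 1 := Real.exp_le_one_iff.2 (by norm_num)
    linarith
  have hB := hG.hB
  have hl0 := hG.lam_pos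
  have hl := hG.lam_lt
  refine ⟨?_, IUp.last hB hl0 hl (hG.nonneg 0)⟩
  have hA : 1 / 2 - lam / (2 * B) = (B - lam) / (2 * B) := by field_simp
  rw [hA, le_div_iff₀ (by positivity)]
  have hBl : 0 < B - lam := by linarith
  rcases le_total B 16 with h16 | h16
  · have hk := IUp.key hB hl0 hl 0 (hG.nonneg 0)
    have hJ := IUp.J_bd0 hB
    have h1 : (B - lam) * ∫ r in (0 : ℝ)..1, IUp.g B 0 r ^ 2 * r ≤ (B - lam) * (1 / 2) :=
      mul_le_mul_of_nonneg_left hJ hBl.le
    have h2 : Real.exp (-8) ≤ Real.exp (-(B / 2)) := Real.exp_le_exp.2 (by linarith)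
    push_cast at hk
    nlinarith
  · -- `B ≥ 16`
    set x : ℝ := B / 2 with hx
    have hx8 : 8 ≤ x := by rw [hx]; linarith
    set s : ℝ := Real.sqrt x with hs
    have hs2 : s * s = x := Real.mul_self_sqrt (by linarith)
    have hs0 : 0 ≤ s := Real.sqrt_nonneg x
    have hs2' : 2 ≤ s := by nlinarith
    set n : ℕ := ⌈x - s⌉₊ with hn
    have hn1 : x - s ≤ n := Nat.le_ceil _
    have hn2 : (n : ℝ) < x - s + 1 := Nat.ceil_lt_add_one (by nlinarith)
    have hn3 : x / 2 ≤ n := by nlinarith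
    have hnpos : 0 < n := by
      have : (0 : ℝ) < n := by linarith
      exact_mod_cast this
    have hn' : (0 : ℝ) < n := by exact_mod_cast hnpos
    have hk := IUp.key hB hl0 hl n (hG.nonneg n)
    have hJ := IUp.J_bd (B := B) hnpos
    rw [← hx] at hk hJ
    have hz1 : s / 2 ≤ x - n := by linarith
    have hz2 : (x - n) ^ 2 / n ≤ 2 := by
      rw [div_le_iff₀ hn']
      have : (x - n) ^ 2 ≤ s ^ 2 := pow_le_pow_left₀ (by linarith) (by linarith) 2
      nlinarith
    have hsq : Real.sqrt (Real.pi / (n / 4)) ≤ 6 / s := by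
      rw [Real.sqrt_le_left (by positivity), div_pow, sq s, hs2, div_le_div_iff₀ (by positivity) (by linarith)]
      have := Real.pi_lt_d2
      nlinarith [Real.pi_pos]
    have he : Real.exp (-x + (x - n) ^ 2 / n) ≤ Real.exp (-x) * Real.exp 2 := by
      rw [← Real.exp_add]
      exact Real.exp_le_exp.2 (by linarith)
    have h1 : (B - lam) * ∫ r in (0 : ℝ)..1, IUp.g B n r ^ 2 * r
        ≤ (B - lam) * ((Real.exp (-x) * Real.exp 2) * (6 / s)) := by
      refine mul_le_mul_of_nonneg_left (hJ.trans ?_) hBl.le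
      exact mul_le_mul he hsq (Real.sqrt_nonneg _) (by positivity)
    have h2 : (x - n) * Real.exp (-x) ≤ ((B - lam) * (Real.exp 2 * (6 / s))) * Real.exp (-x) := by
      calc (x - n) * Real.exp (-x) ≤ _ := hk
        _ ≤ _ := h1
        _ = _ := by ring
    have h3 : x - n ≤ (B - lam) * (Real.exp 2 * (6 / s)) := le_of_mul_le_mul_right h2 (Real.exp_pos _)
    have h4 : x / 2 ≤ 6 * (B - lam) * Real.exp 2 := by
      have h5 : s / 2 ≤ (B - lam) * (Real.exp 2 * (6 / s)) := hz1.trans h3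
      have h6 : (B - lam) * (Real.exp 2 * (6 / s)) = (6 * (B - lam) * Real.exp 2) / s := by ring
      rw [h6, le_div_iff₀ (by linarith)] at h5
      nlinarith
    have h7 : (1 + 6 + 6 ^ 2 / 2 : ℝ) ≤ Real.exp 6 := Real.quadratic_le_exp_of_nonneg (by norm_num)
    have h8 : Real.exp 2 * Real.exp (-8) = Real.exp (-6) := by rw [← Real.exp_add]; norm_num
    have h9 : Real.exp 6 * Real.exp (-6) = 1 := by rw [← Real.exp_add]; norm_num
    have h10 : Real.exp (-6) ≤ 1 / 24 := by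
      have := Real.exp_pos (-6)
      nlinarith
    have h11 : x / 2 * Real.exp (-8) ≤ 6 * (B - lam) * (1 / 24) := by
      calc x / 2 * Real.exp (-8) ≤ 6 * (B - lam) * Real.exp 2 * Real.exp (-8) :=
            mul_le_mul_of_nonneg_right h4 (Real.exp_pos _).le
        _ = 6 * (B - lam) * Real.exp (-6) := by rw [← h8]; ring
        _ ≤ _ := mul_le_mul_of_nonneg_left h10 (by positivity)
    have h12 : B = 2 * x := by rw [hx]; ring
    have h13 : Real.exp (-8) / 2 * (2 * B) = 4 * (x / 2 * Real.exp (-8)) := by rw [h12]; ring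
    rw [h13]
    linarith

end Pool.Agent.MFK.NU
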