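import Pool.Agent.Work.MP_8826fd_mp.NU.Stmts

/-!
# MP_8826fd_mp, block NU, item Vlo

The lower bound `y_k ≥ -z + 2xA/(k+1)`, by scaling to the radius 1.
-/

set_option autoImplicit false

namespace Pool.Agent.MFK.NU

open MeasureTheory Set Filter Topology Pool.Agent.MFK.NF

namespace IVlo

/-- the first Kummer parameter is invariant under the scaling -/
theorem an_scale (B lam : ℝ) (n : ℤ) {r : ℝ} (hr : r ≠ 0) :
    An (B * r ^ 2) (lam * r ^ 2) n = An B lam n := by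
  unfold An
  have h : lam * r ^ 2 / (2 * (B * r ^ 2)) = lam / (2 * B) := by
    rw [← mul_assoc]
    exact mul_div_mul_right _ _ (pow_ne_zero 2 hr)
  rw [h]

/-- the scaling of the radial solution -/
theorem gk_scale (B lam : ℝ) (k : ℕ) {r : ℝ} (hr : r ≠ 0) (t : ℝ) :
    gk B lam k (r * t) = r ^ k * gk (B * r ^ 2) (lam * r ^ 2) k t := by
  unfold gk radf FK
  rw [an_scale B lam _ hr]
  have h1 : B * (r * t) ^ 2 / 4 = B * r ^ 2 * t ^ 2 / 4 := by ring
  have h2 : B * (r * t) ^ 2 / 2 = B * r ^ 2 * t ^ 2 / 2 := by ring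
  rw [h1, h2]
  simp only [Int.natAbs_natCast]
  rw [mul_pow]
  ring

/-- the scaling of the logarithmic derivative -/
theorem yk_scale (B lam : ℝ) (k : ℕ) {r : ℝ} (hB : 0 < B) (hl : lam < B) (hr : 0 < r) :
    yk B lam k r = yk (B * r ^ 2) (lam * r ^ 2) k 1 := by
  have hB' : 0 < B * r ^ 2 := mul_pos hB (pow_pos hr 2)
  have hl' : lam * r ^ 2 < B * r ^ 2 := mul_lt_mul_of_pos_right hl (pow_pos hr 2)
  have hrk : (r : ℝ) ^ k ≠ 0 := pow_ne_zero k hr.ne'
  have h1 : HasDerivAt (fun t : ℝ => gk B lam k (r * t)) (deriv (gk B lam k) r * r) 1 := by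
    have hd : HasDerivAt (gk B lam k) (deriv (gk B lam k) r) (r * 1) := by
      rw [mul_one]
      exact gk_d1 hB hl k r
    have hm : HasDerivAt (fun t : ℝ => r * t) r 1 := by
      simpa using (hasDerivAt_id (1 : ℝ)).const_mul r
    exact hd.comp 1 hm
  have h2 : HasDerivAt (fun t : ℝ => r ^ k * gk (B * r ^ 2) (lam * r ^ 2) k t)
      (r ^ k * deriv (gk (B * r ^ 2) (lam * r ^ 2) k) 1) 1 :=
    (gk_d1 hB' hl' k 1).const_mul (r ^ k)
  have h3 : (fun t : ℝ => gk B lam k (r * t)) =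
      fun t : ℝ => r ^ k * gk (B * r ^ 2) (lam * r ^ 2) k t := by
    funext t
    exact gk_scale B lam k hr.ne' t
  rw [h3] at h1
  have h4 : deriv (gk B lam k) r * r = r ^ k * deriv (gk (B * r ^ 2) (lam * r ^ 2) k) 1 :=
    h1.unique h2
  have h5 : gk B lam k r = r ^ k * gk (B * r ^ 2) (lam * r ^ 2) k 1 := by
    have := gk_scale B lam k hr.ne' 1
    rwa [mul_one] at this
  unfold yk
  rw [mul_comm r, h4, h5, one_mul]
  exact mul_div_mul_left _ _ hrk

/-- at the radius 1 the logarithmic derivative is the Dirichlet to Neumann number -/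
theorem yk_one (B lam : ℝ) (k : ℕ) :
    yk B lam k 1 = dtn (fun n => FK B lam n) (k : ℤ) := by
  unfold yk dtn gk
  have h : radf (k : ℤ) (FK B lam (k : ℤ)) 1 = FK B lam (k : ℤ) 1 := by
    unfold radf
    simp
  rw [h, one_mul]

/-- the case of the radius 1 -/
theorem vlo_one (B lam : ℝ) (k : ℕ) (hB : 0 < B) (hl0 : 0 < lam) (hl : lam < B) :
    -(B / 2 - k) + B * (1 / 2 - lam / (2 * B)) / (k + 1) ≤ yk B lam k 1 := by
  rw [yk_one]
  have hv := (Asm.rVal' B lam (k : ℤ) hB).2 hl.le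
  rw [hv]
  have hA : An B lam (k : ℤ) = 1 / 2 - lam / (2 * B) := by
    unfold An
    rw [if_neg (by simp)]
    ring
  rw [hA]
  simp only [Int.natAbs_natCast]
  set A : ℝ := 1 / 2 - lam / (2 * B) with hAdef
  have hA0 : 0 ≤ A := by
    have h1 : lam / (2 * B) ≤ 1 / 2 := by
      rw [div_le_div_iff₀ (by positivity) (by norm_num)]
      nlinarith
    linarith
  have hA1 : A ≤ 1 / 2 := by
    have h1 : 0 ≤ lam / (2 * B) := by positivity
    linarith
  have hk : (0 : ℝ) ≤ k := Nat.cast_nonneg k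
  have hb : (0 : ℝ) < (k : ℝ) + 1 := by linarith
  have hx : (0 : ℝ) ≤ B / 2 := by positivity
  have hbd := (Asm.kBd A ((k : ℝ) + 1) (B / 2) hA0 (by linarith) hb hx).1
  have hpos : 0 < Phi A ((k : ℝ) + 1) (B / 2) :=
    lt_of_lt_of_le one_pos (Asm.kPos A ((k : ℝ) + 1) (B / 2) hA0 hb hx).1
  have hq : A / ((k : ℝ) + 1) ≤ Phi1 A ((k : ℝ) + 1) (B / 2) / Phi A ((k : ℝ) + 1) (B / 2) := by
    rw [le_div_iff₀ hpos]
    exact hbd
  have hm := mul_le_mul_of_nonneg_left hq hB.le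
  rw [mul_div_assoc]
  linarith

end IVlo

open IVlo in
/-- ITEM Vlo -/
theorem pr_Vlo : StVlo := by
  intro B lam k r hB hl0 hl hr
  have hr2 : 0 < r ^ 2 := pow_pos hr 2
  have hB' : 0 < B * r ^ 2 := mul_pos hB hr2
  have hl0' : 0 < lam * r ^ 2 := mul_pos hl0 hr2
  have hl' : lam * r ^ 2 < B * r ^ 2 := mul_lt_mul_of_pos_right hl hr2
  have h := vlo_one (B * r ^ 2) (lam * r ^ 2) k hB' hl0' hl'
  have hs : lam * r ^ 2 / (2 * (B * r ^ 2)) = lam / (2 * B) := by
    rw [← mul_assoc]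
    exact mul_div_mul_right _ _ hr2.ne'
  rw [hs] at h
  rw [yk_scale B lam k hB hl hr]
  exact h

end Pool.Agent.MFK.NU
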