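import Pool.Agent.Work.MP_8826fd_mp.NF.Asm
import Pool.Agent.Work.MP_8826fd_mp.NU.I_Gr
import Pool.Agent.Work.MP_8826fd_mp.NU.I_Vlo
import Pool.Agent.Work.MP_8826fd_mp.NU.I_Star
import Pool.Agent.Work.MP_8826fd_mp.NU.I_Up
import Pool.Agent.Work.MP_8826fd_mp.NU.I_Low
import Pool.Agent.Work.MP_8826fd_mp.NU.I_Eff
import Pool.Agent.Work.MP_8826fd_mp.NU.I_Neg
import Pool.Agent.Work.MP_8826fd_mp.NU.I_Sup
import Pool.Agent.Work.MP_8826fd_mp.NU.I_RdU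
import Pool.Agent.Work.MP_8826fd_mp.NU.I_MUU
import Pool.Agent.Work.MP_8826fd_mp.NU.I_FinU

/-!
# MP_8826fd_mp, block NU: assembly
-/

set_option autoImplicit false

namespace Pool.Agent.MFK.NU

open Pool.Agent.MFK.NF

theorem all_Eff : StEff := pr_Eff pr_Vlo (pr_Star pr_Vlo)

theorem all_Sup : StSup := pr_Sup pr_Vlo (pr_Neg pr_Vlo)

theorem all_MUU : StMUU :=
  pr_MUU pr_Gr pr_Up pr_Low all_Eff all_Sup pr_RdU pr_Gau pr_Den pr_Ray all_Area all_En (pr_C2 pr_C0 pr_C1)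

theorem all_FinU : StFinU := pr_FinU all_MUU

end Pool.Agent.MFK.NU
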