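import Pool.Agent.Work.MP_8826fd_mp.NU.Stmts

/-!
# MP_8826fd_mp, block NU, item RdU: the radial energy with explicit constants
-/

set_option autoImplicit false

namespace Pool.Agent.MFK.NU

open MeasureTheory Set Filter Topology Pool.Agent.MFK.NF

namespace IRdU

/-- the coefficients beyond the first one -/
noncomputable def dd (s : ℝ) (c : ℕ → ℝ) (j : ℕ) : ℝ := c j - (if j = 1 then s ^ 2 else 0)

/-- `ρ(r)` -/
noncomputable def R0 (s : ℝ) (c : ℕ → ℝ) (r : ℝ) : ℝ := ∑' j, dd s c j * r ^ (2 * j)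

/-- `ρ'(r)` -/
noncomputable def R1 (s : ℝ) (c : ℕ → ℝ) (r : ℝ) : ℝ := ∑' j, dd s c j * (2 * j * r ^ (2 * j - 1))

theorem pow_bd {r : ℝ} (h0 : 0 ≤ r) (h1 : r ≤ 1) (n : ℕ) :
    n * r ^ (n - 1) * (1 - r) ≤ 1 - r ^ n := by
  induction n with
  | zero => simp
  | succ n ih =>
    rcases Nat.eq_zero_or_pos n with hn | hn
    · subst hn; simp
    · obtain ⟨m, rfl⟩ : ∃ m, n = m + 1 := ⟨n - 1, by omega⟩
      simp only [Nat.add_sub_cancel] at ih ⊢
      push_cast at ih ⊢
      have h2 : r ^ (m + 1) ≤ 1 := pow_le_one₀ h0 h1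
      have h3 := mul_le_mul_of_nonneg_left ih h0
      have h4 : r ^ (m + 1) * (1 - r) ≤ 1 * (1 - r) :=
        mul_le_mul_of_nonneg_right h2 (by linarith)
      have h5 : r * ((m + 1) * r ^ m * (1 - r)) = (m + 1) * r ^ (m + 1) * (1 - r) := by ring
      rw [h5] at h3
      rw [pow_succ r (m + 1)]
      nlinarith

section coeff

variable {N : ℕ} {s : ℝ} {c : ℕ → ℝ} (hN : 1 ≤ N) (hc : Cf N s c)
include hN hc

omit hN in
theorem dd_zero {j : ℕ} (hj : j ≤ N) : dd s c j = 0 := by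
  unfold dd
  rcases Nat.lt_trichotomy j 1 with h | h | h
  · have : j = 0 := by omega
    subst this
    simp [hc.c0]
  · subst h
    simp [hc.c1]
  · rw [hc.gap j h hj]
    simp [h.ne']

theorem dd_nonneg (j : ℕ) : 0 ≤ dd s c j := by
  rcases le_or_gt j N with h | h
  · rw [dd_zero hc h]
  · unfold dd
    have : j ≠ 1 := by omega
    simp [this, hc.nonneg j]

omit hN in
theorem dd_sum : HasSum (dd s c) (1 - s ^ 2) := hc.sum.sub (hasSum_ite_eq 1 (s ^ 2))

theorem s_le : 0 ≤ 1 - s ^ 2 := (dd_sum hc).nonneg (dd_nonneg hN hc)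

theorem R0_sum {r : ℝ} (h0 : 0 ≤ r) (h1 : r ≤ 1) :
    HasSum (fun j => dd s c j * r ^ (2 * j)) (R0 s c r) :=
  (Summable.of_nonneg_of_le (fun j => mul_nonneg (dd_nonneg hN hc j) (pow_nonneg h0 _))
    (fun j => mul_le_of_le_one_right (dd_nonneg hN hc j) (pow_le_one₀ h0 h1))
    (dd_sum hc).summable).hasSum

theorem R0_nonneg {r : ℝ} (h0 : 0 ≤ r) : 0 ≤ R0 s c r :=
  tsum_nonneg (fun j => mul_nonneg (dd_nonneg hN hc j) (pow_nonneg h0 _))

theorem R0_le {r : ℝ} (h0 : 0 ≤ r) (h1 : r ≤ 1) : R0 s c r ≤ (1 - s ^ 2) * r ^ (2 * N + 2) := by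
  refine hasSum_le (fun j => ?_) (R0_sum hN hc h0 h1) ((dd_sum hc).mul_right (r ^ (2 * N + 2)))
  rcases le_or_gt j N with h | h
  · simp [dd_zero hc h]
  · exact mul_le_mul_of_nonneg_left (pow_le_pow_of_le_one h0 h1 (by omega)) (dd_nonneg hN hc j)

omit hN in
theorem R0_one : R0 s c 1 = 1 - s ^ 2 := by
  unfold R0
  simp only [one_pow, mul_one]
  exact (dd_sum hc).tsum_eq

theorem R0_cont : ContinuousOn (R0 s c) (Icc 0 1) := by
  refine continuousOn_tsum (u := dd s c) (fun j => by fun_prop) (dd_sum hc).summable ?_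
  intro j r hr
  rw [Real.norm_eq_abs, abs_of_nonneg (mul_nonneg (dd_nonneg hN hc j) (pow_nonneg hr.1 _))]
  exact mul_le_of_le_one_right (dd_nonneg hN hc j) (pow_le_one₀ hr.1 hr.2)

theorem term_le {r q : ℝ} (h0 : 0 ≤ r) (h1 : r ≤ q) (hq : q < 1) (j : ℕ) :
    dd s c j * (2 * j * r ^ (2 * j - 1)) ≤ dd s c j * (1 / (1 - q)) := by
  refine mul_le_mul_of_nonneg_left ?_ (dd_nonneg hN hc j)
  have hr1 : r < 1 := lt_of_le_of_lt h1 hq
  have h2 := pow_bd h0 hr1.le (2 * j)
  push_cast at h2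
  have h3 : 0 ≤ r ^ (2 * j) := pow_nonneg h0 _
  have h4 : 0 ≤ 2 * (j : ℝ) * r ^ (2 * j - 1) := by positivity
  rw [le_div_iff₀ (by linarith)]
  calc 2 * (j : ℝ) * r ^ (2 * j - 1) * (1 - q) ≤ 2 * (j : ℝ) * r ^ (2 * j - 1) * (1 - r) :=
        mul_le_mul_of_nonneg_left (by linarith) h4
    _ ≤ 1 - r ^ (2 * j) := h2
    _ ≤ 1 := by linarith

theorem term_nonneg {r : ℝ} (h0 : 0 ≤ r) (j : ℕ) :
    0 ≤ dd s c j * (2 * j * r ^ (2 * j - 1)) := by
  have := dd_nonneg hN hc j
  positivity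

theorem R1_sum {r : ℝ} (h0 : 0 ≤ r) (h1 : r < 1) :
    HasSum (fun j => dd s c j * (2 * j * r ^ (2 * j - 1))) (R1 s c r) :=
  (Summable.of_nonneg_of_le (term_nonneg hN hc h0) (term_le hN hc h0 le_rfl h1)
    ((dd_sum hc).summable.mul_right _)).hasSum

theorem R1_nonneg {r : ℝ} (h0 : 0 ≤ r) : 0 ≤ R1 s c r := tsum_nonneg (term_nonneg hN hc h0)

theorem Aa_eq {r : ℝ} (h0 : 0 ≤ r) (h1 : r ≤ 1) : Aa c r = s ^ 2 * r ^ 2 + R0 s c r := by
  have h2 := (R0_sum hN hc h0 h1).add (hasSum_ite_eq 1 (s ^ 2 * r ^ 2))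
  have h3 : (fun j => c j * r ^ (2 * j))
      = fun j => dd s c j * r ^ (2 * j) + (if j = 1 then s ^ 2 * r ^ 2 else 0) := by
    funext j
    unfold dd
    by_cases hj : j = 1
    · subst hj
      simp
      ring
    · simp [hj]
  unfold Aa
  rw [h3, h2.tsum_eq]
  ring

theorem Aad_eq {r : ℝ} (h0 : 0 ≤ r) (h1 : r < 1) : Aad c r = 2 * s ^ 2 * r + R1 s c r := by
  have h2 := (R1_sum hN hc h0 h1).add (hasSum_ite_eq 1 (2 * s ^ 2 * r))
  have h3 : (fun j : ℕ => c j * (2 * j * r ^ (2 * j - 1)))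
      = fun j : ℕ => dd s c j * (2 * j * r ^ (2 * j - 1)) + (if j = 1 then 2 * s ^ 2 * r else 0) := by
    funext j
    unfold dd
    by_cases hj : j = 1
    · subst hj
      simp
      ring
    · simp [hj]
  unfold Aad
  rw [h3, h2.tsum_eq]
  ring

theorem Aa_le {r : ℝ} (h0 : 0 ≤ r) (h1 : r ≤ 1) : Aa c r ≤ r ^ 2 := by
  rw [Aa_eq hN hc h0 h1]
  have h2 := R0_le hN hc h0 h1
  have h3 : r ^ (2 * N + 2) ≤ r ^ 2 := pow_le_pow_of_le_one h0 h1 (by omega)
  have h4 := mul_le_mul_of_nonneg_left h3 (s_le hN hc)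
  linarith

theorem R0_deriv {r : ℝ} (h0 : 0 < r) (h1 : r < 1) : HasDerivAt (R0 s c) (R1 s c r) r := by
  obtain ⟨q, hq1, hq2⟩ := exists_between h1
  refine hasDerivAt_tsum_of_isPreconnected (u := fun j => dd s c j * (1 / (1 - q)))
    (g := fun j y => dd s c j * y ^ (2 * j))
    (g' := fun j y => dd s c j * (2 * j * y ^ (2 * j - 1)))
    ((dd_sum hc).summable.mul_right _) (isOpen_Ioo (a := 0) (b := q)) isPreconnected_Ioo
    (fun j y _ => ?_) (fun j y hy => ?_) (y₀ := r) ⟨h0, hq1⟩ (R0_sum hN hc h0.le h1.le).summable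
    ⟨h0, hq1⟩
  · have := (hasDerivAt_pow (2 * j) y).const_mul (dd s c j)
    refine this.congr_deriv ?_
    push_cast
    ring
  · rw [Real.norm_eq_abs, abs_of_nonneg (term_nonneg hN hc hy.1.le j)]
    exact term_le hN hc hy.1.le hy.2.le hq2 j

theorem R1_int : IntegrableOn (R1 s c) (Icc 0 1) := by
  rw [integrableOn_Icc_iff_integrableOn_Ioc]
  exact intervalIntegral.integrableOn_deriv_of_nonneg (R0_cont hN hc)
    (fun r hr => R0_deriv hN hc hr.1 hr.2) (fun r hr => R1_nonneg hN hc hr.1.le)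

end coeff

end IRdU

open IRdU in
/-- item RdU (the statement StVlo is not needed: only the upper bound of `y_k` enters) -/
theorem pr_RdU : StRdU := by
  intro B lam K k N s c hB hl0 hl hK hN hs hs1 hk hKb hc
  have hGpos : ∀ r, 0 < r → 0 < gk B lam k r := fun r hr => gk_pos hB hl k hr
  have hcont : Continuous (gk B lam k) := gk_cont hB hl k
  have hdc : Continuous (deriv (gk B lam k)) := gk_dcont hB hl k
  have hd1 := fun x => gk_d1 hB hl k x
  have hode := fun x (hx : 0 < x) => gk_ode hB hl k hx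
  have hlt := fun x (hx : 0 < x) => gk_lt hB hl0 hl k hx
  obtain ⟨K1, hK1, hbd⟩ := gk_bdd hB hl k
  set G := gk B lam k with hG
  -- first claim
  have hsup : ∀ r ∈ Icc (0 : ℝ) 1, G (s * r) ^ 2 ≤ K ^ 2 * G s ^ 2 := by
    have hpos : ∀ r : ℝ, 0 < r → r ≤ 1 → G (s * r) ^ 2 ≤ K ^ 2 * G s ^ 2 := by
      intro r hr hr1
      have hx : 0 < s * r := mul_pos hs hr
      have h1 := hKb (s * r) hx (mul_le_of_le_one_right hs.le hr1)
      have h2 := hGpos _ hx
      rw [← mul_pow]
      exact pow_le_pow_left₀ h2.le h1 2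
    intro r hr
    rcases eq_or_lt_of_le hr.1 with h0 | h0
    · subst h0
      have ht : Tendsto (fun r : ℝ => G (s * r) ^ 2) (𝓝[>] 0) (𝓝 (G (s * 0) ^ 2)) :=
        ((hcont.comp (continuous_const.mul continuous_id)).pow 2).continuousAt.tendsto.mono_left
          nhdsWithin_le_nhds
      refine le_of_tendsto ht ?_
      filter_upwards [Ioo_mem_nhdsGT (show (0 : ℝ) < 1 by norm_num)] with t ht
      exact hpos t ht.1 ht.2.le
    · exact hpos r h0 hr.2
  have hsN := s_le hN hc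
  -- integrability of the energy density
  have hE : IntegrableOn (fun r => 2 * r * ((s * deriv G (s * r)) ^ 2
      + G (s * r) ^ 2 * ((k - B * Aa c r / 2) / r) ^ 2)) (Ioo 0 1) := by
    have hAc : ContinuousOn (Aa c) (Ioo 0 1) := by
      have h1 : ContinuousOn (fun r => s ^ 2 * r ^ 2 + R0 s c r) (Ioo 0 1) :=
        (by fun_prop : ContinuousOn (fun r : ℝ => s ^ 2 * r ^ 2) (Ioo 0 1)).add
          ((R0_cont hN hc).mono Ioo_subset_Icc_self)
      exact h1.congr (fun r hr => Aa_eq hN hc hr.1.le hr.2.le)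
    have hm : ContinuousOn (fun r => 2 * r * ((s * deriv G (s * r)) ^ 2
      + G (s * r) ^ 2 * ((k - B * Aa c r / 2) / r) ^ 2)) (Ioo 0 1) := by
      have h1 : ContinuousOn (fun r : ℝ => ((k : ℝ) - B * Aa c r / 2) / r) (Ioo 0 1) :=
        (continuousOn_const.sub ((continuousOn_const.mul hAc).div_const 2)).div continuousOn_id
          (fun r hr => hr.1.ne')
      have h2 : ContinuousOn (fun r : ℝ => (s * deriv G (s * r)) ^ 2) (Ioo 0 1) :=
        ((continuous_const.mul (hdc.comp (continuous_const.mul continuous_id))).pow 2).continuousOn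
      have h3 : ContinuousOn (fun r : ℝ => G (s * r) ^ 2) (Ioo 0 1) :=
        ((hcont.comp (continuous_const.mul continuous_id)).pow 2).continuousOn
      have h4 : ContinuousOn (fun r : ℝ => 2 * r) (Ioo 0 1) := by fun_prop
      exact h4.mul (h2.add (h3.mul (h1.pow 2)))
    refine Integrable.of_bound (hm.aestronglyMeasurable measurableSet_Ioo)
      (2 * (K1 ^ 2 + (K1 + B * K1) ^ 2)) ?_
    filter_upwards [self_mem_ae_restrict measurableSet_Ioo] with r hr
    have hx : 0 < s * r := mul_pos hs hr.1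
    have hx1 : s * r ≤ 1 := by nlinarith [hr.2]
    obtain ⟨b1, b2, b3⟩ := hbd (s * r) ⟨hx.le, hx1⟩
    have b3 := b3 hx
    have hA0 : 0 ≤ Aa c r := by
      rw [Aa_eq hN hc hr.1.le hr.2.le]
      have := R0_nonneg hN hc hr.1.le
      positivity
    have hA1 := Aa_le hN hc hr.1.le hr.2.le
    have e1 : (s * deriv G (s * r)) ^ 2 ≤ K1 ^ 2 := by
      rw [← sq_abs, abs_mul, abs_of_pos hs]
      refine pow_le_pow_left₀ (by positivity) ?_ 2
      calc s * |deriv G (s * r)| ≤ 1 * K1 := mul_le_mul hs1 b2 (abs_nonneg _) zero_le_one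
        _ = K1 := one_mul _
    have e2 : G (s * r) ^ 2 * ((k - B * Aa c r / 2) / r) ^ 2 ≤ (K1 + B * K1) ^ 2 := by
      rw [← mul_pow, ← sq_abs]
      refine pow_le_pow_left₀ (abs_nonneg _) ?_ 2
      have e3 : G (s * r) * ((k - B * Aa c r / 2) / r)
          = s * ((k : ℝ) / (s * r) * G (s * r)) - B * (Aa c r / r) / 2 * G (s * r) := by
        have := hr.1.ne'
        have := hs.ne'
        field_simp
      rw [e3]
      have e4 : |s * ((k : ℝ) / (s * r) * G (s * r))| ≤ K1 := by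
        rw [abs_mul, abs_of_pos hs]
        calc s * |(k : ℝ) / (s * r) * G (s * r)| ≤ 1 * K1 :=
              mul_le_mul hs1 b3 (abs_nonneg _) zero_le_one
          _ = K1 := one_mul _
      have e5 : Aa c r / r ≤ 1 := by
        rw [div_le_one hr.1]
        nlinarith [hr.1, hr.2]
      have e6 : 0 ≤ Aa c r / r := div_nonneg hA0 hr.1.le
      have e7 : |B * (Aa c r / r) / 2 * G (s * r)| ≤ B * K1 := by
        rw [abs_mul, abs_of_nonneg (show 0 ≤ B * (Aa c r / r) / 2 by positivity)]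
        refine mul_le_mul ?_ b1 (abs_nonneg _) hB.le
        nlinarith
      calc |s * ((k : ℝ) / (s * r) * G (s * r)) - B * (Aa c r / r) / 2 * G (s * r)|
          ≤ |s * ((k : ℝ) / (s * r) * G (s * r))| + |B * (Aa c r / r) / 2 * G (s * r)| :=
            abs_sub _ _
        _ ≤ K1 + B * K1 := add_le_add e4 e7
    have e8 : 0 ≤ (s * deriv G (s * r)) ^ 2
        + G (s * r) ^ 2 * ((k - B * Aa c r / 2) / r) ^ 2 := by positivity
    rw [Real.norm_eq_abs, abs_of_nonneg (mul_nonneg (by linarith [hr.1]) e8)]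
    refine mul_le_mul (by linarith [hr.2]) (add_le_add e1 e2) e8 (by norm_num)
  -- integrability of the mass density
  have hR : IntegrableOn (fun r => G (s * r) ^ 2 * (2 * s ^ 2 * r + R1 s c r)) (Ioo 0 1) := by
    have h1 : IntegrableOn (fun r => 2 * s ^ 2 * r + R1 s c r) (Icc 0 1) :=
      ((by fun_prop : Continuous (fun r : ℝ => 2 * s ^ 2 * r)).continuousOn.integrableOn_Icc).add
        (R1_int hN hc)
    have h2 : ContinuousOn (fun r : ℝ => G (s * r) ^ 2) (Icc 0 1) :=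
      ((hcont.comp (continuous_const.mul continuous_id)).pow 2).continuousOn
    exact (h1.continuousOn_mul h2 isCompact_Icc).mono_set Ioo_subset_Icc_self
  have hM : IntegrableOn (fun r => G (s * r) ^ 2 * Aad c r) (Ioo 0 1) :=
    hR.congr_fun (fun r hr => by
      show G (s * r) ^ 2 * (2 * s ^ 2 * r + R1 s c r) = G (s * r) ^ 2 * Aad c r
      rw [Aad_eq hN hc hr.1.le hr.2]) measurableSet_Ioo
  refine ⟨hsup, hE, hM, ?_⟩
  -- the estimate
  set D : ℝ := 3 * B ^ 2 * K ^ 2 * G s ^ 2 * (1 - s ^ 2) with hD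
  set T : ℝ → ℝ := fun r => 2 * r * ((s * deriv G (s * r)) ^ 2
      + G (s * r) ^ 2 * ((k - B * Aa c r / 2) / r) ^ 2) - lam * (G (s * r) ^ 2 * Aad c r) with hT
  set Φ : ℝ → ℝ := fun r => 2 * ((s * r * deriv G (s * r)) * G (s * r))
      - lam * (G (s * r) ^ 2 * R0 s c r) with hΦ
  have hTi : IntegrableOn T (Ioo 0 1) := hE.sub (hM.const_mul lam)
  have hφi : IntegrableOn (fun r => T r - D * r ^ (2 * N + 1)) (Icc 0 1) := by
    rw [integrableOn_Icc_iff_integrableOn_Ioo]
    exact hTi.sub (((by fun_prop : Continuous (fun r : ℝ => D * r ^ (2 * N + 1))).continuousOn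
      (s := Icc 0 1)).integrableOn_Icc.mono_set Ioo_subset_Icc_self)
  have hΦc : ContinuousOn Φ (Icc 0 1) := by
    have h1 : ContinuousOn (fun r : ℝ => 2 * ((s * r * deriv G (s * r)) * G (s * r))) (Icc 0 1) := by
      have a1 : Continuous (fun r : ℝ => deriv G (s * r)) :=
        hdc.comp (continuous_const.mul continuous_id)
      have a2 : Continuous (fun r : ℝ => G (s * r)) :=
        hcont.comp (continuous_const.mul continuous_id)
      have a3 : Continuous (fun r : ℝ => s * r) := by fun_prop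
      exact (continuous_const.mul ((a3.mul a1).mul a2)).continuousOn
    have h2 : ContinuousOn (fun r : ℝ => G (s * r) ^ 2) (Icc 0 1) :=
      ((hcont.comp (continuous_const.mul continuous_id)).pow 2).continuousOn
    exact h1.sub (continuousOn_const.mul (h2.mul (R0_cont hN hc)))
  have hmain : (∫ r in (0 : ℝ)..1, (T r - D * r ^ (2 * N + 1))) ≤ Φ 1 - Φ 0 := by
    refine intervalIntegral.integral_le_sub_of_hasDeriv_right_of_le (g' := fun r =>
      2 * ((s * ((s * r) * ((((k : ℝ) / (s * r) - B * (s * r) / 2) ^ 2 - lam) * G (s * r)))) * G (s * r)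
        + (s * r * deriv G (s * r)) * (s * deriv G (s * r)))
      - lam * ((2 * G (s * r) * (s * deriv G (s * r))) * R0 s c r + G (s * r) ^ 2 * R1 s c r))
      zero_le_one hΦc (fun r hr => ?_) hφi (fun r hr => ?_)
    · have hx : 0 < s * r := mul_pos hs hr.1
      have hlin : HasDerivAt (fun r : ℝ => s * r) s r := by
        simpa using (hasDerivAt_id' r).const_mul s
      have a1 : HasDerivAt (fun r : ℝ => G (s * r)) (s * deriv G (s * r)) r := by
        have := (hd1 (s * r)).comp r hlin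
        exact this.congr_deriv (mul_comm _ _)
      have a2 : HasDerivAt (fun r : ℝ => s * r * deriv G (s * r))
          (s * ((s * r) * ((((k : ℝ) / (s * r) - B * (s * r) / 2) ^ 2 - lam) * G (s * r)))) r := by
        have := (hode (s * r) hx).comp r hlin
        exact this.congr_deriv (mul_comm _ _)
      have a3 := (a2.fun_mul a1).const_mul 2
      have a4 := ((a1.fun_pow 2).fun_mul (R0_deriv hN hc hr.1 hr.2)).const_mul lam
      have a5 := a3.fun_sub a4
      refine (a5.congr_deriv ?_).hasDerivWithinAt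
      simp only [Nat.cast_ofNat, Nat.add_one_sub_one, pow_one]
    · have hr0 := hr.1
      have hx : 0 < s * r := mul_pos hs hr.1
      have hA := Aa_eq hN hc hr.1.le hr.2.le
      have hAd := Aad_eq hN hc hr.1.le hr.2
      have hρ0 := R0_nonneg hN hc hr.1.le
      have hρ1 := R0_le hN hc hr.1.le hr.2.le
      have hAr := Aa_le hN hc hr.1.le hr.2.le
      have hA1 : Aa c r ≤ 1 := hAr.trans (pow_le_one₀ hr.1.le hr.2.le)
      have hs2 : s ^ 2 * r ^ 2 ≤ 1 := by
        have := hA ▸ hA1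
        linarith
      have hG2 := hsup r ⟨hr.1.le, hr.2.le⟩
      have hGp := hGpos _ hx
      -- upper bound of the logarithmic derivative
      have hy : s * r * deriv G (s * r) ≤ B * G (s * r) := by
        have h1 := hlt (s * r) hx
        rw [div_lt_iff₀ hGp] at h1
        have h2 : (k : ℝ) + B * (s * r) ^ 2 / 2 ≤ B := by
          have h3 : s ^ 2 ≤ 1 := by linarith
          have h4 : (s * r) ^ 2 ≤ 1 := by rw [mul_pow]; exact hs2
          nlinarith
        exact h1.le.trans (mul_le_mul_of_nonneg_right h2 hGp.le)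
      -- abbreviations
      set g := G (s * r) with hg
      set g1 := deriv G (s * r) with hg1
      set ρ := R0 s c r with hρ
      have hkey1 : (k - B * Aa c r / 2) ^ 2 - (k - B * (s ^ 2 * r ^ 2) / 2) ^ 2 ≤ B ^ 2 * ρ / 2 := by
        rw [hA]
        have h1 : ((k : ℝ) - B * (s ^ 2 * r ^ 2 + ρ) / 2) ^ 2 - (k - B * (s ^ 2 * r ^ 2) / 2) ^ 2
            = (B * ρ / 2) * (B * (s ^ 2 * r ^ 2 + (s ^ 2 * r ^ 2 + ρ)) / 2) - B * ρ * k := by ring
        rw [h1]
        have h2 : 0 ≤ B * ρ * k := by positivity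
        have h3 : B * (s ^ 2 * r ^ 2 + (s ^ 2 * r ^ 2 + ρ)) / 2 ≤ B := by
          have h4 : s ^ 2 * r ^ 2 + (s ^ 2 * r ^ 2 + ρ) ≤ 2 := by
            rw [hA] at hA1
            linarith
          nlinarith
        have h5 := mul_le_mul_of_nonneg_left h3 (show 0 ≤ B * ρ / 2 by positivity)
        nlinarith
      have hdiff : T r - (2 * ((s * ((s * r) * ((((k : ℝ) / (s * r) - B * (s * r) / 2) ^ 2 - lam) * g))) * g
          + (s * r * g1) * (s * g1))
          - lam * ((2 * g * (s * g1)) * ρ + g ^ 2 * R1 s c r))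
          = 2 / r * g ^ 2 * ((k - B * Aa c r / 2) ^ 2 - (k - B * (s ^ 2 * r ^ 2) / 2) ^ 2)
            + 2 / r * lam * (s * r * g1) * g * ρ := by
        have hTr : T r = 2 * r * ((s * g1) ^ 2 + g ^ 2 * ((k - B * Aa c r / 2) / r) ^ 2)
            - lam * (g ^ 2 * Aad c r) := rfl
        rw [hTr, hAd]
        have := hr0.ne'
        have := hs.ne'
        field_simp
        ring
      have hb1 : 2 / r * g ^ 2 * ((k - B * Aa c r / 2) ^ 2 - (k - B * (s ^ 2 * r ^ 2) / 2) ^ 2)
          ≤ B ^ 2 * g ^ 2 * ρ / r := by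
        have h1 := mul_le_mul_of_nonneg_left hkey1 (show 0 ≤ 2 / r * g ^ 2 by positivity)
        refine h1.trans (le_of_eq ?_)
        field_simp
      have hb2 : 2 / r * lam * (s * r * g1) * g * ρ ≤ 2 * B ^ 2 * g ^ 2 * ρ / r := by
        have h1 : lam * (s * r * g1) ≤ B * (B * g) :=
          (mul_le_mul_of_nonneg_left hy hl0.le).trans
            (mul_le_mul_of_nonneg_right hl.le (by positivity))
        have h2 := mul_le_mul_of_nonneg_left h1 (show 0 ≤ 2 / r * g * ρ by positivity)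
        calc 2 / r * lam * (s * r * g1) * g * ρ = 2 / r * g * ρ * (lam * (s * r * g1)) := by ring
          _ ≤ 2 / r * g * ρ * (B * (B * g)) := h2
          _ = 2 * B ^ 2 * g ^ 2 * ρ / r := by ring
      have hb3 : 3 * B ^ 2 * g ^ 2 * ρ / r ≤ D * r ^ (2 * N + 1) := by
        have h1 : g ^ 2 * ρ ≤ K ^ 2 * G s ^ 2 * ((1 - s ^ 2) * r ^ (2 * N + 2)) :=
          mul_le_mul hG2 hρ1 hρ0 (by positivity)
        rw [div_le_iff₀ hr0]
        calc 3 * B ^ 2 * g ^ 2 * ρ = 3 * B ^ 2 * (g ^ 2 * ρ) := by ring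
          _ ≤ 3 * B ^ 2 * (K ^ 2 * G s ^ 2 * ((1 - s ^ 2) * r ^ (2 * N + 2))) :=
              mul_le_mul_of_nonneg_left h1 (by positivity)
          _ = D * r ^ (2 * N + 1) * r := by rw [hD]; ring
      have hb4 : B ^ 2 * g ^ 2 * ρ / r + 2 * B ^ 2 * g ^ 2 * ρ / r = 3 * B ^ 2 * g ^ 2 * ρ / r := by
        ring
      show T r - D * r ^ (2 * N + 1) ≤ _
      linarith
  have hint : (∫ r in (0 : ℝ)..1, (T r - D * r ^ (2 * N + 1)))
      = (∫ r in Ioo (0 : ℝ) 1, T r) - D / (2 * N + 2) := by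
    have hTii : IntervalIntegrable T volume 0 1 := by
      rw [intervalIntegrable_iff_integrableOn_Ioo_of_le zero_le_one]
      exact hTi
    have hPi : IntervalIntegrable (fun r : ℝ => D * r ^ (2 * N + 1)) volume 0 1 :=
      (by fun_prop : Continuous (fun r : ℝ => D * r ^ (2 * N + 1))).intervalIntegrable _ _
    rw [intervalIntegral.integral_sub hTii hPi]
    rw [intervalIntegral.integral_const_mul, integral_pow,
      intervalIntegral.integral_of_le zero_le_one, integral_Ioc_eq_integral_Ioo]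
    push_cast
    norm_num
    ring
  have hsplit : (∫ r in Ioo (0 : ℝ) 1, T r)
      = (∫ r in Ioo (0 : ℝ) 1, 2 * r * ((s * deriv G (s * r)) ^ 2
        + G (s * r) ^ 2 * ((k - B * Aa c r / 2) / r) ^ 2))
        - lam * (∫ r in Ioo (0 : ℝ) 1, G (s * r) ^ 2 * Aad c r) := by
    rw [hT, integral_sub hE (hM.const_mul lam), integral_const_mul]
  have hΦ1 : Φ 1 = 2 * WW B lam k s := by
    simp only [hΦ, mul_one, R0_one hc]
    unfold WW
    rw [← hG]
    ring
  have hΦ0 : Φ 0 = 0 := by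
    have h1 : R0 s c 0 = 0 := by
      refine le_antisymm ?_ (R0_nonneg hN hc le_rfl)
      have := R0_le hN hc (le_refl (0 : ℝ)) zero_le_one
      simpa using this
    simp only [hΦ, h1]
    ring
  rw [hint, hsplit, hΦ1, hΦ0] at hmain
  have hfin : D / (2 * N + 2) ≤ 2 * K ^ 2 * B ^ 2 * (1 - s ^ 2) / N * G s ^ 2 := by
    have hN0 : (0 : ℝ) < N := by exact_mod_cast hN
    have h1 : D / (2 * N + 2) ≤ D / (2 * N) := by
      refine div_le_div_of_nonneg_left ?_ (by positivity) (by linarith)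
      rw [hD]
      positivity
    have h2 : D / (2 * N) = 3 / 4 * (2 * K ^ 2 * B ^ 2 * (1 - s ^ 2) / N * G s ^ 2) := by
      rw [hD]
      field_simp
      ring
    have h3 : 0 ≤ 2 * K ^ 2 * B ^ 2 * (1 - s ^ 2) / N * G s ^ 2 := by positivity
    linarith
  linarith

end Pool.Agent.MFK.NU
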